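import Mathlib

/-!
Standard realizations of finite abstract complexes on the label set ℕ, stellar subdivision and weld maps.
-/

namespace Pool.Agent.P.MP_e9dd47_gt

open Finsupp

abbrev V := ℕ →₀ ℝ

noncomputable def mass : V →ₗ[ℝ] ℝ := Finsupp.linearCombination ℝ (fun _ => (1 : ℝ))

noncomputable def lin {E : Type} [AddCommGroup E] [Module ℝ E] (φ : ℕ → E) : V →ₗ[ℝ] E :=
  Finsupp.linearCombination ℝ φ

@[simp] lemma mass_single (i : ℕ) (r : ℝ) : mass (single i r) = r := by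
  simp [mass]

@[simp] lemma lin_single {E : Type} [AddCommGroup E] [Module ℝ E] (φ : ℕ → E) (i : ℕ) (r : ℝ) :
    lin φ (single i r) = r • φ i := by
  simp [lin]

lemma mass_eq_sum (x : V) (s : Finset ℕ) (h : x.support ⊆ s) : mass x = ∑ i ∈ s, x i := by
  simp only [mass, Finsupp.linearCombination_apply, smul_eq_mul, mul_one]
  exact Finsupp.sum_of_support_subset x h (fun _ r => r) (by simp)

lemma lin_eq_sum {E : Type} [AddCommGroup E] [Module ℝ E] (φ : ℕ → E) (x : V) (s : Finset ℕ)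
    (h : x.support ⊆ s) : lin φ x = ∑ i ∈ s, x i • φ i := by
  simp only [lin, Finsupp.linearCombination_apply]
  exact Finsupp.sum_of_support_subset x h (fun i r => r • φ i) (by simp)

/-- the standard realization of the complex generated by `F` -/
def real (F : Set (Finset ℕ)) : Set V :=
  {x | (∀ i, 0 ≤ x i) ∧ mass x = 1 ∧ ∃ s ∈ F, x.support ⊆ s}

lemma real_mono {F G : Set (Finset ℕ)} (h : ∀ s ∈ F, ∃ t ∈ G, s ⊆ t) : real F ⊆ real G := by
  rintro x ⟨h0, h1, s, hs, hx⟩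
  obtain ⟨t, ht, hst⟩ := h s hs
  exact ⟨h0, h1, t, ht, hx.trans hst⟩

lemma real_single_subset {F : Set (Finset ℕ)} {s : Finset ℕ} (hs : s ∈ F) : real {s} ⊆ real F :=
  real_mono (fun t ht => ⟨s, hs, by rw [Set.mem_singleton_iff.1 ht]⟩)

lemma mem_real_single {s : Finset ℕ} {x : V} :
    x ∈ real {s} ↔ (∀ i, 0 ≤ x i) ∧ mass x = 1 ∧ x.support ⊆ s := by
  simp [real]

lemma mem_real_iff {F : Set (Finset ℕ)} {x : V} : x ∈ real F ↔ ∃ s ∈ F, x ∈ real {s} := by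
  simp only [mem_real_single]
  constructor
  · rintro ⟨h0, h1, s, hs, hx⟩; exact ⟨s, hs, h0, h1, hx⟩
  · rintro ⟨s, hs, h0, h1, hx⟩; exact ⟨h0, h1, s, hs, hx⟩

lemma single_mem_real {F : Set (Finset ℕ)} {s : Finset ℕ} (hs : s ∈ F) {i : ℕ} (hi : i ∈ s) :
    single i (1 : ℝ) ∈ real F := by
  refine ⟨fun j => ?_, by simp, s, hs, ?_⟩
  · rw [single_apply]; split_ifs <;> norm_num
  · exact support_single_subset.trans (by simpa using hi)

lemma mass_nonneg {x : V} (h : ∀ i, 0 ≤ x i) : 0 ≤ mass x := by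
  rw [mass_eq_sum x _ le_rfl]; exact Finset.sum_nonneg fun i _ => h i

lemma eq_zero_of_mass {x : V} (h : ∀ i, 0 ≤ x i) (h1 : mass x = 0) : x = 0 := by
  rw [mass_eq_sum x _ le_rfl, Finset.sum_eq_zero_iff_of_nonneg (fun i _ => h i)] at h1
  ext i
  by_contra hi
  exact hi (h1 i (mem_support_iff.2 hi))

lemma support_nonempty {F : Set (Finset ℕ)} {x : V} (hx : x ∈ real F) : x.support.Nonempty := by
  rw [Finset.nonempty_iff_ne_empty]
  intro h
  have := hx.2.1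
  rw [support_eq_empty.1 h] at this
  simp at this

/-- a point of the open simplex spanned by `σ` -/
structure Ctr (σ : Finset ℕ) (l : V) : Prop where
  ne : σ.Nonempty
  nonneg : ∀ i, 0 ≤ l i
  mass : mass l = 1
  supp : l.support = σ

lemma Ctr.pos {σ : Finset ℕ} {l : V} (h : Ctr σ l) {i : ℕ} (hi : i ∈ σ) : 0 < l i :=
  lt_of_le_of_ne (h.nonneg i) (Ne.symm (mem_support_iff.1 (h.supp ▸ hi)))

lemma Ctr.zero {σ : Finset ℕ} {l : V} (h : Ctr σ l) {i : ℕ} (hi : i ∉ σ) : l i = 0 :=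
  notMem_support_iff.1 (h.supp ▸ hi)

noncomputable def mn (σ : Finset ℕ) (l : V) (x : V) : ℝ :=
  if h : σ.Nonempty then σ.inf' h (fun i => x i / l i) else 0

/-- subdivision map -/
noncomputable def Umap (σ : Finset ℕ) (l : V) (w : ℕ) (x : V) : V :=
  x + mn σ l x • (single w 1 - l)

/-- weld map -/
noncomputable def Wmap (l : V) (w : ℕ) : V →ₗ[ℝ] V :=
  LinearMap.id + (Finsupp.lapply w).smulRight (l - single w 1)

lemma Wmap_apply (l : V) (w : ℕ) (x : V) : Wmap l w x = x + x w • (l - single w 1) := by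
  simp [Wmap]

def sd (F : Set (Finset ℕ)) (σ : Finset ℕ) (w : ℕ) : Set (Finset ℕ) :=
  {t | t ∈ F ∧ ¬ σ ⊆ t} ∪ {t' | ∃ t ∈ F, σ ⊆ t ∧ ∃ v ∈ σ, t' = insert w (t.erase v)}

lemma mn_le {σ : Finset ℕ} {l : V} (h : Ctr σ l) (x : V) {i : ℕ} (hi : i ∈ σ) :
    mn σ l x * l i ≤ x i := by
  rw [mn, dif_pos h.ne, ← le_div_iff₀ (h.pos hi)]
  exact Finset.inf'_le _ hi

lemma mn_attained {σ : Finset ℕ} {l : V} (h : Ctr σ l) (x : V) :
    ∃ i ∈ σ, mn σ l x * l i = x i := by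
  obtain ⟨i, hi, he⟩ := Finset.exists_mem_eq_inf' h.ne (fun i => x i / l i)
  refine ⟨i, hi, ?_⟩
  rw [mn, dif_pos h.ne, he, div_mul_cancel₀ _ (h.pos hi).ne']

lemma mn_eq {σ : Finset ℕ} {l : V} (h : Ctr σ l) (x : V) (c : ℝ)
    (h1 : ∀ i ∈ σ, c * l i ≤ x i) (h2 : ∃ i ∈ σ, c * l i = x i) : mn σ l x = c := by
  obtain ⟨i, hi, he⟩ := h2
  obtain ⟨j, hj, he'⟩ := mn_attained h x
  apply le_antisymm
  · have := mn_le h x hi
    rw [← he] at this
    exact le_of_mul_le_mul_right this (h.pos hi)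
  · have := h1 j hj
    rw [← he'] at this
    exact le_of_mul_le_mul_right this (h.pos hj)

lemma mn_nonneg {σ : Finset ℕ} {l : V} (h : Ctr σ l) {x : V} (hx : ∀ i, 0 ≤ x i) :
    0 ≤ mn σ l x := by
  obtain ⟨j, hj, he'⟩ := mn_attained h x
  have := hx j
  rw [← he'] at this
  exact nonneg_of_mul_nonneg_left this (h.pos hj)

lemma mn_zero {σ : Finset ℕ} {l : V} (h : Ctr σ l) {x : V} (hx : ∀ i, 0 ≤ x i)
    (h0 : ∃ i ∈ σ, x i = 0) : mn σ l x = 0 := by
  apply mn_eq h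
  · intro i _; simpa using hx i
  · obtain ⟨i, hi, h0⟩ := h0; exact ⟨i, hi, by simp [h0]⟩

lemma Umap_apply (σ : Finset ℕ) (l : V) (w : ℕ) (x : V) (i : ℕ) :
    Umap σ l w x i = x i + mn σ l x * ((if w = i then 1 else 0) - l i) := by
  simp [Umap, single_apply]

lemma Wmap_apply' (l : V) (w : ℕ) (x : V) (i : ℕ) :
    Wmap l w x i = x i + x w * (l i - (if w = i then 1 else 0)) := by
  simp [Wmap_apply, single_apply]

lemma Umap_of_zero {σ : Finset ℕ} {l : V} (h : Ctr σ l) (w : ℕ) {x : V} (hx : ∀ i, 0 ≤ x i)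
    (h0 : ∃ i ∈ σ, x i = 0) : Umap σ l w x = x := by
  simp [Umap, mn_zero h hx h0]

lemma W_U {σ : Finset ℕ} {l : V} (h : Ctr σ l) {w : ℕ} (hw : w ∉ σ) {x : V} (hx : x w = 0) :
    Wmap l w (Umap σ l w x) = x := by
  ext i
  rw [Wmap_apply', Umap_apply, Umap_apply, hx, h.zero hw]
  simp only [if_true]
  ring

lemma U_W {σ : Finset ℕ} {l : V} (h : Ctr σ l) {w : ℕ} (hw : w ∉ σ) {y : V} (hy : ∀ i, 0 ≤ y i)
    (h0 : ∃ i ∈ σ, y i = 0) : Umap σ l w (Wmap l w y) = y := by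
  have hne : ∀ i ∈ σ, ¬ w = i := fun i hi e => hw (e ▸ hi)
  have : mn σ l (Wmap l w y) = y w := by
    apply mn_eq h
    · intro i hi
      rw [Wmap_apply', if_neg (hne i hi)]
      have := hy i
      linarith
    · obtain ⟨i, hi, h0⟩ := h0
      refine ⟨i, hi, ?_⟩
      rw [Wmap_apply', if_neg (hne i hi), h0]; ring
  ext i
  rw [Umap_apply, this, Wmap_apply']
  ring

lemma Umap_nonneg {σ : Finset ℕ} {l : V} (h : Ctr σ l) {w : ℕ} {x : V} (hx : ∀ i, 0 ≤ x i)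
    (i : ℕ) : 0 ≤ Umap σ l w x i := by
  rw [Umap_apply]
  have h1 := mn_nonneg h hx
  have h2 : mn σ l x * l i ≤ x i := by
    by_cases hi : i ∈ σ
    · exact mn_le h x hi
    · rw [h.zero hi, mul_zero]; exact hx i
  split_ifs <;> nlinarith

lemma Umap_mass {σ : Finset ℕ} {l : V} (h : Ctr σ l) (w : ℕ) (x : V) :
    mass (Umap σ l w x) = mass x := by
  simp [Umap, h.mass]

lemma Wmap_mass {σ : Finset ℕ} {l : V} (h : Ctr σ l) (w : ℕ) (x : V) :
    mass (Wmap l w x) = mass x := by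
  simp [Wmap_apply, h.mass]

lemma Wmap_nonneg {σ : Finset ℕ} {l : V} (h : Ctr σ l) {w : ℕ} {x : V} (hx : ∀ i, 0 ≤ x i)
    (i : ℕ) : 0 ≤ Wmap l w x i := by
  rw [Wmap_apply']
  have h1 := hx i
  have h2 := hx w
  have h3 := h.nonneg i
  split_ifs with e
  · subst e; nlinarith
  · nlinarith

/-- support of the subdivided point -/
lemma Umap_support {σ : Finset ℕ} {l : V} (h : Ctr σ l) (w : ℕ) {x : V} {t : Finset ℕ}
    (ht : x.support ⊆ t) (hσ : σ ⊆ t) :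
    ∃ v ∈ σ, (Umap σ l w x).support ⊆ insert w (t.erase v) := by
  obtain ⟨v, hv, he⟩ := mn_attained h x
  refine ⟨v, hv, fun i hi => ?_⟩
  rw [mem_support_iff, Umap_apply] at hi
  by_cases e : w = i
  · simp [e]
  rw [if_neg e] at hi
  refine Finset.mem_insert_of_mem (Finset.mem_erase.2 ⟨?_, ?_⟩)
  · rintro rfl; apply hi; linarith
  · by_contra hit
    apply hi
    rw [notMem_support_iff.1 (fun a => hit (ht a)), h.zero (fun a => hit (hσ a))]; ring

lemma Wmap_support {σ : Finset ℕ} {l : V} (h : Ctr σ l) (w : ℕ) (y : V) :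
    (Wmap l w y).support ⊆ y.support.erase w ∪ σ := by
  intro i hi
  rw [mem_support_iff, Wmap_apply'] at hi
  by_contra hn
  simp only [Finset.mem_union, Finset.mem_erase, mem_support_iff, not_or, not_and, not_not] at hn
  apply hi
  rw [h.zero hn.2]
  by_cases e : w = i
  · subst e; simp
  · rw [hn.1 (Ne.symm e), if_neg e]; ring

lemma Wmap_of_zero (l : V) {w : ℕ} {y : V} (h : y w = 0) : Wmap l w y = y := by
  simp [Wmap_apply, h]

lemma U_mem {F : Set (Finset ℕ)} {σ : Finset ℕ} {l : V} (h : Ctr σ l) (w : ℕ)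
    {x : V} (hx : x ∈ real F) : Umap σ l w x ∈ real (sd F σ w) := by
  obtain ⟨h0, h1, t, ht, hs⟩ := hx
  refine ⟨Umap_nonneg h h0, by rw [Umap_mass h, h1], ?_⟩
  by_cases hσ : σ ⊆ t
  · obtain ⟨v, hv, hh⟩ := Umap_support h w hs hσ
    exact ⟨_, Or.inr ⟨t, ht, hσ, v, hv, rfl⟩, hh⟩
  · refine ⟨t, Or.inl ⟨ht, hσ⟩, ?_⟩
    rw [Umap_of_zero h w h0]
    · exact hs
    · obtain ⟨i, hi, hit⟩ := Finset.not_subset.1 hσ
      exact ⟨i, hi, notMem_support_iff.1 (fun a => hit (hs a))⟩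

lemma W_mem {F : Set (Finset ℕ)} {σ : Finset ℕ} {l : V} (h : Ctr σ l) {w : ℕ}
    (hF : ∀ t ∈ F, w ∉ t) {y : V} (hy : y ∈ real (sd F σ w)) : Wmap l w y ∈ real F := by
  obtain ⟨h0, h1, t', ht', hs⟩ := hy
  refine ⟨Wmap_nonneg h h0, by rw [Wmap_mass h, h1], ?_⟩
  rcases ht' with ⟨ht, -⟩ | ⟨t, ht, hσ, v, hv, rfl⟩
  · refine ⟨t', ht, ?_⟩
    rw [Wmap_of_zero]
    · exact hs
    · exact notMem_support_iff.1 (fun a => hF _ ht (hs a))
  · refine ⟨t, ht, (Wmap_support h w y).trans ?_⟩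
    intro i hi
    rcases Finset.mem_union.1 hi with hi | hi
    · have := hs (Finset.mem_erase.1 hi).2
      rcases Finset.mem_insert.1 this with e | e
      · exact absurd e (Finset.mem_erase.1 hi).1
      · exact (Finset.mem_erase.1 e).2
    · exact hσ hi

lemma sd_miss {F : Set (Finset ℕ)} {σ : Finset ℕ} {w : ℕ} (hw : w ∉ σ) {y : V}
    (hy : y ∈ real (sd F σ w)) : ∃ i ∈ σ, y i = 0 := by
  obtain ⟨-, -, t', ht', hs⟩ := hy
  rcases ht' with ⟨-, hσ⟩ | ⟨t, -, -, v, hv, rfl⟩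
  · obtain ⟨i, hi, hit⟩ := Finset.not_subset.1 hσ
    exact ⟨i, hi, notMem_support_iff.1 (fun a => hit (hs a))⟩
  · refine ⟨v, hv, notMem_support_iff.1 (fun a => ?_)⟩
    rcases Finset.mem_insert.1 (hs a) with e | e
    · exact hw (e ▸ hv)
    · simp at e

lemma real_zero {F : Set (Finset ℕ)} {w : ℕ} (hF : ∀ t ∈ F, w ∉ t) {x : V} (hx : x ∈ real F) :
    x w = 0 := by
  obtain ⟨-, -, t, ht, hs⟩ := hx
  exact notMem_support_iff.1 (fun a => hF _ ht (hs a))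

lemma U_bij {F : Set (Finset ℕ)} {σ : Finset ℕ} {l : V} (h : Ctr σ l) {w : ℕ} (hw : w ∉ σ)
    (hF : ∀ t ∈ F, w ∉ t) : Set.BijOn (Umap σ l w) (real F) (real (sd F σ w)) := by
  refine ⟨fun x hx => U_mem h w hx, fun x hx y hy e => ?_, fun y hy => ?_⟩
  · rw [← W_U h hw (real_zero hF hx), e, W_U h hw (real_zero hF hy)]
  · exact ⟨_, W_mem h hF hy, U_W h hw hy.1 (sd_miss hw hy)⟩

lemma W_bij {F : Set (Finset ℕ)} {σ : Finset ℕ} {l : V} (h : Ctr σ l) {w : ℕ} (hw : w ∉ σ)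
    (hF : ∀ t ∈ F, w ∉ t) : Set.BijOn (Wmap l w) (real (sd F σ w)) (real F) := by
  refine ⟨fun x hx => W_mem h hF hx, fun x hx y hy e => ?_, fun y hy => ?_⟩
  · rw [← U_W h hw hx.1 (sd_miss hw hx), e, U_W h hw hy.1 (sd_miss hw hy)]
  · exact ⟨_, U_mem h w hy, W_U h hw (real_zero hF hy)⟩

lemma sd_finite {F : Set (Finset ℕ)} (hF : F.Finite) (σ : Finset ℕ) (w : ℕ) :
    (sd F σ w).Finite := by
  refine (hF.subset (fun t ht => ht.1)).union ?_
  refine ((hF.prod σ.finite_toSet).image (fun p => insert w (p.1.erase p.2))).subset ?_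
  rintro t' ⟨t, ht, -, v, hv, rfl⟩
  exact ⟨(t, v), ⟨ht, hv⟩, rfl⟩

lemma exists_fresh {F : Set (Finset ℕ)} (hF : F.Finite) (s : Finset ℕ) :
    ∃ w, w ∉ s ∧ ∀ t ∈ F, w ∉ t := by
  obtain ⟨w, hw⟩ := Infinite.exists_notMem_finset (s ∪ hF.toFinset.biUnion id)
  refine ⟨w, fun a => hw (Finset.mem_union_left _ a), fun t ht a => hw ?_⟩
  exact Finset.mem_union_right _ (Finset.mem_biUnion.2 ⟨t, hF.mem_toFinset.2 ht, a⟩)

/-- the barycentre -/
noncomputable def bary (σ : Finset ℕ) : V :=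
  Finsupp.onFinset σ (fun i => if i ∈ σ then (σ.card : ℝ)⁻¹ else 0) (fun i hi => by
    by_contra h; simp [h] at hi)

lemma bary_apply (σ : Finset ℕ) (i : ℕ) : bary σ i = if i ∈ σ then (σ.card : ℝ)⁻¹ else 0 := rfl

lemma bary_ctr {σ : Finset ℕ} (h : σ.Nonempty) : Ctr σ (bary σ) := by
  have hc : (0 : ℝ) < σ.card := by exact_mod_cast h.card_pos
  have hs : (bary σ).support = σ := by
    ext i
    rw [mem_support_iff, bary_apply]
    split_ifs with hi <;> simp [hi, hc.ne']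
  refine ⟨h, fun i => ?_, ?_, hs⟩
  · rw [bary_apply]; split_ifs <;> positivity
  · rw [mass_eq_sum _ σ hs.le, Finset.sum_congr rfl (fun i hi => by rw [bary_apply, if_pos hi])]
    simp [hc.ne']

end Pool.Agent.P.MP_e9dd47_gt
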