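import Mathlib

namespace Pool.Agent.P.MP_e9dd47_gt

/-- `K` is a finite geometric simplicial complex whose underlying set is `X`. -/
def Triangulates {E : Type} [AddCommGroup E] [Module ℝ E]
    (K : Geometry.SimplicialComplex ℝ E) (X : Set E) : Prop :=
  K.faces.Finite ∧ K.space = X

/-- `f` is piecewise linear on the compact polyhedron `X`: it is affine on every simplex of
some triangulation of `X`. -/
def IsPLOn {E F : Type} [AddCommGroup E] [Module ℝ E] [AddCommGroup F] [Module ℝ F]
    (f : E → F) (X : Set E) : Prop :=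
  ∃ K : Geometry.SimplicialComplex ℝ E, Triangulates K X ∧
    ∀ s ∈ K.faces, ∃ g : E →ᵃ[ℝ] F, Set.EqOn f g (convexHull ℝ (s : Set E))

/-- Elementary simplicial collapse: remove a simplex `t` and a free face `s` of it. -/
def ElemCollapse {E : Type} (A B : Set (Finset E)) : Prop :=
  ∃ s ∈ A, ∃ t ∈ A, s ⊆ t ∧ t.card = s.card + 1 ∧ (∀ r ∈ A, s ⊆ r → r = s ∨ r = t) ∧
    B = A \ {s, t}

/-- Some triangulation of `X` reduces to one vertex by elementary simplicial collapses. -/
def Collapsible {E : Type} [AddCommGroup E] [Module ℝ E] (X : Set E) : Prop :=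
  ∃ K : Geometry.SimplicialComplex ℝ E, Triangulates K X ∧
    ∃ p : E, Relation.ReflTransGen ElemCollapse K.faces {{p}}

/-- The cone with apex `0` over the graph `G` drawn on the standard basis vectors. -/
def graphCone {ι : Type} [DecidableEq ι] (G : SimpleGraph ι) : Set (ι → ℝ) :=
  ⋃ (a : ι) (b : ι) (_ : G.Adj a b), convexHull ℝ {0, Pi.single a 1, Pi.single b 1}

/-- `x` has a closed neighbourhood in `P` that is PL homeomorphic to the cone over `G`,
with `x` corresponding to the apex. -/
def LocallyCone {n : ℕ} {ι : Type} [DecidableEq ι] (G : SimpleGraph ι) (P : Set (Fin n → ℝ))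
    (x : Fin n → ℝ) : Prop :=
  ∃ N : Set (Fin n → ℝ), IsClosed N ∧ N ⊆ P ∧ N ∈ nhdsWithin x P ∧
    ∃ f : (ι → ℝ) → (Fin n → ℝ), IsPLOn f (graphCone G) ∧ Set.BijOn f (graphCone G) N ∧ f 0 = x

/-- A (closed) fake surface: a compact connected polyhedron that is locally the cone over a
circle (a disc), over a theta graph (three half discs) or over the 1-skeleton of a tetrahedron. -/
def IsFakeSurface {n : ℕ} (P : Set (Fin n → ℝ)) : Prop :=
  (∃ K : Geometry.SimplicialComplex ℝ (Fin n → ℝ), Triangulates K P) ∧ IsConnected P ∧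
    ∀ x ∈ P, LocallyCone (⊤ : SimpleGraph (Fin 3)) P x ∨
      LocallyCone (completeBipartiteGraph (Fin 2) (Fin 3)) P x ∨
      LocallyCone (⊤ : SimpleGraph (Fin 4)) P x

/-- The boundary 3-sphere of the cross-polytope without two antipodal open facets. Its quotient
by the antipodal map is punctured real projective 3-space. -/
def puncturedSphere : Set (Fin 4 → ℝ) :=
  {x | ∑ i, |x i| = 1 ∧ ¬ (∀ i, 0 < x i) ∧ ¬ (∀ i, x i < 0)}

/-- Punctured real projective 3-space embeds piecewise linearly in `Y`. -/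
def PuncturedRP3Embeds {E : Type} [AddCommGroup E] [Module ℝ E] (Y : Set E) : Prop :=
  ∃ f : (Fin 4 → ℝ) → E, IsPLOn f puncturedSphere ∧ Set.MapsTo f puncturedSphere Y ∧
    ∀ x ∈ puncturedSphere, ∀ y ∈ puncturedSphere, f x = f y ↔ y = x ∨ y = -x

end Pool.Agent.P.MP_e9dd47_gt
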