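import Pool.Agent.P.MP_e9dd47_gt.Geo
import Pool.Agent.P.MP_e9dd47_gt.Defs

/-!
From `GT` to Mathlib's geometric simplicial complexes.
-/

namespace Pool.Agent.P.MP_e9dd47_gt

open Finsupp

variable {E : Type} [AddCommGroup E] [Module ℝ E]

/-- all nonempty faces -/
def faces (F : Set (Finset ℕ)) : Set (Finset ℕ) := {t | t.Nonempty ∧ ∃ s ∈ F, t ⊆ s}

lemma faces_finite {F : Set (Finset ℕ)} (h : F.Finite) : (faces F).Finite := by
  refine (h.biUnion (fun s _ => s.powerset.finite_toSet)).subset ?_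
  rintro t ⟨-, s, hs, ht⟩
  exact Set.mem_biUnion hs (by simpa using ht)

namespace GT

lemma φ_inj (T : GT E) {s t : Finset ℕ} (hs : s ∈ T.F) (ht : t ∈ T.F) {i j : ℕ} (hi : i ∈ s)
    (hj : j ∈ t) (e : T.φ i = T.φ j) : i = j := by
  have := T.inj (single_mem_real hs hi) (single_mem_real ht hj) (by simp [e])
  exact single_left_injective one_ne_zero this

open Classical in
noncomputable def toComplex (T : GT E) : Geometry.SimplicialComplex ℝ E where
  faces := (fun t : Finset ℕ => t.image T.φ) '' faces T.F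
  isRelLowerSet_faces := by
    rintro _ ⟨t, ⟨hne, s, hs, hts⟩, rfl⟩
    refine ⟨hne.image _, fun u hu hune => ?_⟩
    obtain ⟨u', hu', rfl⟩ := Finset.subset_image_iff.1 hu
    exact ⟨u', ⟨Finset.image_nonempty.1 hune, s, hs, hu'.trans hts⟩, rfl⟩
  indep := by
    rintro _ ⟨t, ⟨hne, s, hs, hts⟩, rfl⟩
    have h1 : AffineIndependent ℝ (fun i : t => T.φ i) := by
      rw [affineIndependent_iff]
      intro u w hw0 hw1 i hi
      let d : V := ∑ j ∈ u, single (j : ℕ) (w j)
      have hd : d = 0 := by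
        apply lin_inj_aux (T.inj_cell hs)
        · refine support_finsetSum.trans ?_
          intro k hk
          obtain ⟨j, -, hj⟩ := Finset.mem_biUnion.1 hk
          rw [Finset.mem_singleton.1 (support_single_subset hj)]
          exact hts j.2
        · simp [d, hw0]
        · simp [d, hw1]
      have := congrArg (fun x : V => x i) hd
      simp only [d, Finsupp.coe_finsetSum, Finset.sum_apply, single_apply, Finsupp.coe_zero,
        Pi.zero_apply] at this
      rw [Finset.sum_eq_single i] at this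
      · simpa using this
      · intro j _ hj; rw [if_neg (fun e => hj (Subtype.ext e))]
      · intro h; exact absurd hi h
    have h2 := h1.range
    have h3 : Set.range (fun i : t => T.φ i) = ((t.image T.φ : Finset E) : Set E) := by
      ext z; simp
    rw [h3] at h2
    exact h2
  inter_subset_convexHull := by
    rintro _ _ ⟨t, ⟨-, s, hs, hts⟩, rfl⟩ ⟨t', ⟨-, s', hs', hts'⟩, rfl⟩ z ⟨h1, h2⟩
    simp only [Finset.coe_image, ← cell_eq] at h1 h2
    obtain ⟨x, hx, rfl⟩ := h1
    obtain ⟨y, hy, e⟩ := h2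
    have hx' : x ∈ real T.F := real_mono (fun u hu => ⟨s, hs, by rw [hu]; exact hts⟩) hx
    have hy' : y ∈ real T.F := real_mono (fun u hu => ⟨s', hs', by rw [hu]; exact hts'⟩) hy
    obtain rfl := T.inj hy' hx' e
    have : lin T.φ y ∈ convexHull ℝ (T.φ '' ((t ∩ t' : Finset ℕ) : Set ℕ)) := by
      rw [← cell_eq]
      refine ⟨y, mem_real_single.2 ⟨hx.1, hx.2.1, ?_⟩, rfl⟩
      exact Finset.subset_inter (mem_real_single.1 hx).2.2 (mem_real_single.1 hy).2.2
    refine convexHull_mono ?_ this
    simp only [Finset.coe_inter, Finset.coe_image]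
    exact Set.image_inter_subset _ _ _

open Classical in
lemma toComplex_faces (T : GT E) :
    T.toComplex.faces = (fun t : Finset ℕ => t.image T.φ) '' faces T.F := rfl

lemma toComplex_tri (T : GT E) : Triangulates T.toComplex T.space := by
  classical
  refine ⟨(faces_finite T.fin).image _, ?_⟩
  ext z
  rw [Geometry.SimplicialComplex.mem_space_iff, toComplex_faces]
  constructor
  · rintro ⟨_, ⟨t, ⟨-, s, hs, hts⟩, rfl⟩, hz⟩
    simp only [Finset.coe_image, ← cell_eq] at hz
    obtain ⟨x, hx, rfl⟩ := hz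
    exact ⟨x, real_mono (fun u hu => ⟨s, hs, by rw [hu]; exact hts⟩) hx, rfl⟩
  · rintro ⟨x, hx, rfl⟩
    obtain ⟨s, hs, hx'⟩ := mem_real_iff.1 hx
    refine ⟨_, ⟨s, ⟨(support_nonempty hx).mono (mem_real_single.1 hx').2.2, s, hs, le_rfl⟩, rfl⟩, ?_⟩
    simp only [Finset.coe_image, ← cell_eq]
    exact ⟨x, hx', rfl⟩

lemma isPLOn {W : Type} [AddCommGroup W] [Module ℝ W] (T : GT E) {f : E → W} (h : T.AffOn f) :
    IsPLOn f T.space := by
  classical
  refine ⟨T.toComplex, T.toComplex_tri, ?_⟩
  rintro _ ⟨t, ⟨-, s, hs, hts⟩, rfl⟩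
  obtain ⟨g, hg⟩ := h s hs
  refine ⟨g, hg.mono ?_⟩
  simp only [Finset.coe_image, cell, cell_eq]
  exact convexHull_mono (Set.image_mono hts)

/-- a globally PL map of the barycentric coordinates is PL -/
lemma exists_PL {W : Type} [AddCommGroup W] [Module ℝ W] (T : GT E) {g : V → W} (hg : GPL g) :
    ∃ f : E → W, IsPLOn f T.space ∧ ∀ x ∈ real T.F, f (lin T.φ x) = g x := by
  obtain ⟨β, h1, h2⟩ := T.exists_coord
  obtain ⟨T', k1, k2⟩ := hg E T β h1
  refine ⟨g ∘ β, k1.1 ▸ T'.isPLOn k2, fun x hx => by simp [h2 x hx]⟩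

end GT

lemma ElemCollapse.image {α β : Type} [DecidableEq β] {f : α → β} (hf : Function.Injective f)
    {A B : Set (Finset α)} (h : ElemCollapse A B) :
    ElemCollapse ((fun t : Finset α => t.image f) '' A) ((fun t : Finset α => t.image f) '' B) := by
  obtain ⟨s, hs, t, ht, hst, hc, hfree, rfl⟩ := h
  have hI : Function.Injective (fun t : Finset α => t.image f) := Finset.image_injective hf
  refine ⟨_, ⟨s, hs, rfl⟩, _, ⟨t, ht, rfl⟩, Finset.image_subset_image hst, ?_, ?_, ?_⟩
  · simp only [Finset.card_image_of_injective _ hf, hc]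
  · rintro _ ⟨r, hr, rfl⟩ hsr
    have : s ⊆ r := (Finset.image_subset_image_iff hf).1 hsr
    rcases hfree r hr this with rfl | rfl
    · exact Or.inl rfl
    · exact Or.inr rfl
  · rw [Set.image_sdiff hI, Set.image_pair]

lemma GT.collapsible (T : GT E) (hφ : Function.Injective T.φ) {p : ℕ}
    (h : Relation.ReflTransGen ElemCollapse (faces T.F) {{p}}) : Collapsible T.space := by
  classical
  refine ⟨T.toComplex, T.toComplex_tri, T.φ p, ?_⟩
  have := Relation.ReflTransGen.lift
    (p := ElemCollapse) (fun A => (fun t : Finset ℕ => t.image T.φ) '' A)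
    (fun A B hAB => ElemCollapse.image hφ hAB) _ _ h
  simpa [GT.toComplex_faces, Function.onFun] using this

end Pool.Agent.P.MP_e9dd47_gt
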