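import Pool.Agent.P.MP_e9dd47_gt.Fake

namespace Pool.Agent.P.MP_e9dd47_gt

set_option maxRecDepth 100000

def KK : List (List ℕ) := [
  [0,1,3],[0,1,6],[0,1,13],[0,2,7],[0,2,14],[0,2,17],[0,3,10],[0,3,18],[0,4,11],[0,4,15],[0,4,19],
  [0,5,6],[0,5,7],[0,8,11],[0,8,13],[0,9,10],[0,9,14],[0,12,15],[0,12,17],[0,16,18],[0,16,19],
  [1,3,10],[1,3,18],[1,6,10],[1,13,18],[2,4,11],[2,4,15],[2,4,19],[2,7,11],[2,14,15],[2,17,19],
  [5,6,7],[6,7,10],[7,8,9],[7,8,11],[7,9,10],[8,9,14],[8,12,13],[8,12,15],[8,14,15],[12,13,17],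
  [13,16,18],[13,16,19],[13,17,19]]

def certs : List Cert := [
  
  ([0],[1,3,2,4],[(1,2,6),(6,2,5),(5,2,7),(1,4,13),(13,4,8),(8,4,11),(3,4,18),(18,4,16),(16,4,19),(2,3,14),(14,3,9),(9,3,10),(2,4,17),(17,4,12),(12,4,15)],[]),
  ([1],[0,3,30,6,13],[(6,3,10),(13,3,18)],[(0,3,30)]),
  ([2],[0,4,7,14,17],[(7,4,11),(14,4,15),(17,4,19)],[]),([3],[0,1,30,10,18],[],[(0,1,30)]),
  ([4],[0,2,11,15,19],[],[]),([5],[0,6,7],[],[]),([6],[0,1,10],[(10,0,7),(7,0,5)],[]),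
  ([7],[0,2,11],[(11,0,8),(8,0,9),(9,0,10),(10,0,6),(6,0,5)],[]),
  ([8],[0,11,7],[(7,0,9),(9,0,14),(14,0,15),(15,0,12),(12,0,13)],[]),
  ([9],[0,10,7],[(7,0,8),(8,0,14)],[]),([10],[0,3,1],[(1,0,6),(6,0,7),(7,0,9)],[]),
  ([11],[0,4,2],[(2,0,7),(7,0,8)],[]),([12],[0,15,8],[(8,0,13),(13,0,17)],[]),
  ([13],[0,1,18],[(18,0,16),(16,0,19),(19,0,17),(17,0,12),(12,0,8)],[]),
  ([14],[0,2,15],[(15,0,8),(8,0,9)],[]),([15],[0,4,2],[(2,0,14),(14,0,8),(8,0,12)],[]),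
  ([16],[0,18,13],[(13,0,19)],[]),([17],[0,2,19],[(19,0,13),(13,0,12)],[]),
  ([18],[0,3,1],[(1,0,13),(13,0,16)],[]),([19],[0,4,2],[(2,0,17),(17,0,13),(13,0,16)],[]),
  ([0,1],[1,0,3,6,13],[],[]),([0,2],[2,0,7,14,17],[],[]),([0,3],[3,0,1,10,18],[],[]),
  ([0,4],[4,0,11,15,19],[],[]),([0,5],[0,6,5],[(5,0,7)],[]),([0,6],[0,1,6],[(6,0,5)],[]),
  ([0,7],[0,2,7],[(7,0,5)],[]),([0,8],[0,11,8],[(8,0,13)],[]),([0,9],[0,10,9],[(9,0,14)],[]),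
  ([0,10],[0,3,10],[(10,0,9)],[]),([0,11],[0,4,11],[(11,0,8)],[]),([0,12],[0,15,12],[(12,0,17)],[]),
  ([0,13],[0,1,13],[(13,0,8)],[]),([0,14],[0,2,14],[(14,0,9)],[]),([0,15],[0,4,15],[(15,0,12)],[]),
  ([0,16],[0,18,16],[(16,0,19)],[]),([0,17],[0,2,17],[(17,0,12)],[]),
  ([0,18],[0,3,18],[(18,0,16)],[]),([0,19],[0,4,19],[(19,0,16)],[]),([1,3],[3,1,0,10,18],[],[]),
  ([1,6],[0,6,10],[(10,0,1)],[]),([1,10],[1,3,10],[(10,1,6)],[]),([1,13],[0,13,18],[(18,0,1)],[]),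
  ([1,18],[1,3,18],[(18,1,13)],[]),([2,4],[4,2,11,15,19],[],[]),([2,7],[0,7,11],[(11,0,2)],[]),
  ([2,11],[2,4,11],[(11,2,7)],[]),([2,14],[0,14,15],[(15,0,2)],[]),([2,15],[2,4,15],[(15,2,14)],[]),
  ([2,17],[0,17,19],[(19,0,2)],[]),([2,19],[2,4,19],[(19,2,17)],[]),([3,10],[0,10,1],[(1,0,3)],[]),
  ([3,18],[0,18,1],[(1,0,3)],[]),([4,11],[0,11,2],[(2,0,4)],[]),([4,15],[0,15,2],[(2,0,4)],[]),
  ([4,19],[0,19,2],[(2,0,4)],[]),([5,6],[0,6,7],[(7,0,5)],[]),([5,7],[0,7,6],[(6,0,5)],[]),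
  ([6,7],[5,7,10],[(10,5,6)],[]),([6,10],[1,10,7],[(7,1,6)],[]),([7,8],[7,9,8],[(8,7,11)],[]),
  ([7,9],[7,8,9],[(9,7,10)],[]),([7,10],[6,10,9],[(9,6,7)],[]),([7,11],[2,11,8],[(8,2,7)],[]),
  ([8,9],[7,9,14],[(14,7,8)],[]),([8,11],[0,11,7],[(7,0,8)],[]),([8,12],[8,13,12],[(12,8,15)],[]),
  ([8,13],[0,13,12],[(12,0,8)],[]),([8,14],[8,9,14],[(14,8,15)],[]),
  ([8,15],[8,12,15],[(15,8,14)],[]),([9,10],[0,10,7],[(7,0,9)],[]),([9,14],[0,14,8],[(8,0,9)],[]),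
  ([12,13],[8,13,17],[(17,8,12)],[]),([12,15],[0,15,8],[(8,0,12)],[]),
  ([12,17],[0,17,13],[(13,0,12)],[]),([13,16],[13,18,16],[(16,13,19)],[]),
  ([13,17],[12,17,19],[(19,12,13)],[]),([13,18],[1,18,16],[(16,1,13)],[]),
  ([13,19],[13,16,19],[(19,13,17)],[]),([14,15],[2,15,8],[(8,2,14)],[]),
  ([16,18],[0,18,13],[(13,0,16)],[]),([16,19],[0,19,13],[(13,0,16)],[]),
  ([17,19],[2,19,13],[(13,2,17)],[]),([0,1,3],[0,3,1],[],[]),([0,1,6],[0,6,1],[],[]),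
  ([0,1,13],[0,13,1],[],[]),([0,2,7],[0,7,2],[],[]),([0,2,14],[0,14,2],[],[]),
  ([0,2,17],[0,17,2],[],[]),([0,3,10],[0,10,3],[],[]),([0,3,18],[0,18,3],[],[]),
  ([0,4,11],[0,11,4],[],[]),([0,4,15],[0,15,4],[],[]),([0,4,19],[0,19,4],[],[]),
  ([0,5,6],[0,6,5],[],[]),([0,5,7],[0,7,5],[],[]),([0,8,11],[0,11,8],[],[]),
  ([0,8,13],[0,13,8],[],[]),([0,9,10],[0,10,9],[],[]),([0,9,14],[0,14,9],[],[]),
  ([0,12,15],[0,15,12],[],[]),([0,12,17],[0,17,12],[],[]),([0,16,18],[0,18,16],[],[]),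
  ([0,16,19],[0,19,16],[],[]),([1,3,10],[1,10,3],[],[]),([1,3,18],[1,18,3],[],[]),
  ([1,6,10],[1,10,6],[],[]),([1,13,18],[1,18,13],[],[]),([2,4,11],[2,11,4],[],[]),
  ([2,4,15],[2,15,4],[],[]),([2,4,19],[2,19,4],[],[]),([2,7,11],[2,11,7],[],[]),
  ([2,14,15],[2,15,14],[],[]),([2,17,19],[2,19,17],[],[]),([5,6,7],[5,7,6],[],[]),
  ([6,7,10],[6,10,7],[],[]),([7,8,9],[7,9,8],[],[]),([7,8,11],[7,11,8],[],[]),
  ([7,9,10],[7,10,9],[],[]),([8,9,14],[8,14,9],[],[]),([8,12,13],[8,13,12],[],[]),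
  ([8,12,15],[8,15,12],[],[]),([8,14,15],[8,15,14],[],[]),([12,13,17],[12,17,13],[],[]),
  ([13,16,18],[13,18,16],[],[]),([13,16,19],[13,19,16],[],[]),([13,17,19],[13,19,17],[],[])]

def colls : List (ℕ × List ℕ × ℕ) := [
  (0,[5,6],20),(0,[3,10],20),(20,[32,37],17),(28,[34,35],15),(21,[26,30],10),(20,[28,33],13),
  (1,[6,10],21),(0,[2,7],20),(0,[5,7],20),(2,[4,15],22),(26,[27,30],10),(2,[14,15],22),
  (20,[29,34],14),(21,[23,38],18),(10,[21,26],6),(22,[34,35],15),(18,[21,23],3),(20,[22,37],17),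
  (20,[24,35],15),(20,[36,38],18),(20,[25,27],7),(3,[18,21],1),(27,[28,31],11),(14,[20,29],9),
  (21,[33,38],18),(1,[3,10],21),(22,[24,35],15),(32,[33,37],17),(20,[32,35],15),(20,[28,31],11),
  (22,[24,39],19),(20,[22,27],7),(18,[21,33],13),(20,[24,31],11),(19,[22,24],4),(7,[20,25],5),
  (25,[26,27],7),(17,[32,33],13),(15,[20,32],12),(15,[22,24],4),(27,[28,29],9),(11,[20,24],4),
  (20,[23,38],18),(2,[7,11],22),(33,[36,39],19),(13,[18,21],1),(20,[23,30],10),(20,[36,39],19),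
  (4,[11,20],0),(19,[33,36],16),(20,[25,26],6),(20,[21,26],6),(6,[20,25],5),(20,[21,33],13),
  (22,[24,31],11),(17,[20,22],2),(10,[26,27],7),(11,[20,28],8),(15,[28,34],14),(20,[29,30],10),
  (9,[27,28],8),(11,[27,28],8),(3,[10,20],23),(10,[20,29],9),(22,[37,39],19),(28,[32,35],15),
  (15,[22,34],14),(20,[24,39],19),(15,[20,24],4),(4,[19,22],2),(19,[20,36],16),(8,[11,27],7),
  (13,[20,21],1),(18,[20,36],16),(14,[15,28],8),(33,[36,38],18),(12,[15,20],0),(3,[10,21],23),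
  (2,[17,20],0),(8,[9,27],7),(27,[29,30],10),(2,[7,20],22),(33,[37,39],19),(1,[13,20],0),
  (8,[11,20],0),(18,[20,23],3),(7,[25,26],6),(19,[33,37],17),(13,[20,28],8),(16,[18,20],0),
  (2,[4,11],22),(22,[27,31],11),(3,[18,20],0),(20,[22,34],14),(13,[17,32],12),(0,[9,10],20),
  (6,[7,25],5),(0,[1,6],20),(21,[23,30],10),(8,[13,20],0),(17,[20,32],12),(0,[9,14],20),
  (11,[22,24],4),(12,[17,20],0),(18,[33,36],16),(28,[29,34],14),(16,[19,33],13),(14,[28,29],9),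
  (15,[28,32],12),(16,[18,33],13),(19,[20,24],4),(7,[10,26],6),(19,[22,37],17),(4,[19,20],0),
  (4,[15,20],0),(16,[19,20],0),(11,[22,27],7),(10,[27,29],9),(17,[19,22],2),(28,[32,33],13),
  (0,[2,14],20),(1,[6,20],21),(9,[14,28],8),(17,[19,33],13),(13,[28,32],12),(2,[14,20],22),
  (9,[10,27],7),(12,[15,28],8),(12,[13,28],8),(0,[3,20],1),(3,[20,23],21),(1,[3,20],21),
  (32,[37],17),(20,[38],18),(20,[24],4),(27,[30],10),(18,[20],0),(0,[6],20),(20,[28],8),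
  (20,[33],13),(34,[35],15),(32,[33],13),(0,[9],20),(20,[26],6),(22,[24],4),(32,[35],15),
  (22,[34],14),(17,[32],12),(0,[7],20),(3,[10],23),(26,[27],7),(20,[32],12),(22,[39],19),
  (25,[26],6),(28,[35],15),(1,[6],21),(20,[27],7),(29,[30],10),(33,[38],18),(2,[14],22),(13,[20],0),
  (33,[37],17),(24,[39],19),(37,[39],19),(19,[37],17),(0,[5],20),(7,[26],6),(25,[27],7),
  (24,[31],11),(20,[25],5),(21,[33],13),(15,[34],14),(20,[30],10),(22,[37],17),(36,[38],18),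
  (20,[37],17),(4,[20],0),(3,[20],21),(23,[38],18),(27,[29],9),(33,[36],16),(11,[24],4),
  (26,[30],10),(21,[38],18),(6,[25],5),(18,[36],16),(20,[31],11),(23,[30],10),(15,[28],8),
  (0,[10],20),(19,[22],2),(10,[29],9),(16,[33],13),(0,[14],20),(33,[39],19),(28,[31],11),
  (17,[22],2),(19,[33],13),(7,[25],5),(8,[20],0),(28,[29],9),(18,[21],1),(2,[15],22),(29,[34],14),
  (9,[28],8),(13,[32],12),(12,[20],0),(27,[28],8),(36,[39],19),(22,[31],11),(13,[21],1),(21,[26],6),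
  (27,[31],11),(11,[20],0),(11,[28],8),(22,[35],15),(28,[34],14),(6,[26],10),(10,[27],7),
  (14,[28],8),(1,[10],21),(20,[35],15),(2,[7],22),(28,[33],13),(19,[36],16),(9,[27],7),(20,[29],9),
  (20,[36],16),(21,[30],10),(20,[39],19),(28,[32],12),(17,[20],0),(14,[34],20),(17,[33],13),
  (12,[32],15),(16,[20],0),(2,[11],22),(24,[35],15),(15,[20],0),(13,[28],8),(13,[33],18),
  (22,[27],7),(14,[29],9),(19,[20],0),(15,[24],4),(11,[27],7),(7,[27],8),(4,[24],19),(12,[28],8),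
  (18,[23],3),(3,[23],21),(3,[21],1),(1,[21],20),(1,[20],0),(0,[20],2),(0,[2],17),(2,[17],19),
  (17,[19],13),(13,[19],16),(0,[17],12),(0,[12],15),(12,[15],8),(16,[19],0),(0,[15],4),(8,[15],14),
  (13,[16],18),(8,[12],13),(8,[13],0),(0,[13],1),(13,[17],12),(4,[15],22),(15,[22],14),(16,[18],0),
  (8,[14],9),(8,[9],7),(1,[13],18),(0,[19],4),(1,[18],3),(9,[14],20),(2,[20],22),(2,[22],4),
  (1,[3],0),(7,[9],10),(2,[4],19),(0,[18],3),(0,[4],11),(4,[22],11),(11,[22],7),(7,[11],8),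
  (8,[11],0),(9,[10],20),(14,[20],22),(7,[22],20),(10,[20],23),(7,[20],5),(20,[23],21),(5,[7],6),
  (21,[23],10),(5,[6],20),(7,[10],6),(10,[21],6),(6,[20],21),(1,[],0),(33,[],18),(34,[],20),
  (25,[],5),(39,[],19),(31,[],11),(28,[],8),(38,[],18),(27,[],8),(32,[],15),(24,[],19),(35,[],15),
  (30,[],10),(5,[],20),(26,[],10),(23,[],10),(36,[],16),(2,[],19),(37,[],17),(10,[],6),(17,[],12),
  (16,[],0),(19,[],4),(4,[],11),(11,[],0),(12,[],13),(29,[],9),(15,[],14),(13,[],18),(18,[],3),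
  (3,[],0),(0,[],8),(9,[],20),(8,[],7),(14,[],22),(7,[],6),(22,[],20),(6,[],21),(20,[],21)]

lemma fake_KK : IsFakeSurface (lin φP '' real (cx KK)) :=
  fake_of (C := certs) (by decide +kernel) (by decide +kernel) (by decide +kernel)
    (by decide +kernel) (by decide +kernel)

lemma coll_KK : checkColl colls (masks (KK.flatMap stairs)) 21 = true := by decide +kernel

lemma collapsible_KK : Collapsible ((lin φP '' real (cx KK)) ×ˢ Set.Icc (0 : ℝ) 1) := by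
  have k : ∀ l ∈ KK.flatMap stairs, (∀ i ∈ l, l.headI ≤ i ∧ i ≤ l.headI + 20 ∧ i / 20 ≤ 1) ∧
      ∃ t ∈ KK, ∀ i ∈ l, md i ∈ t := by decide +kernel
  have k2 : ∀ l ∈ KK, l = [l.getD 0 0, l.getD 1 0, l.getD 2 0] ∧ l.getD 0 0 < l.getD 1 0 ∧
      l.getD 1 0 < l.getD 2 0 ∧ l.getD 2 0 < 20 := by decide +kernel
  obtain ⟨a, b⟩ := stair_list (n := 1) one_pos k
  let T : GT ((Fin 20 → ℝ) × ℝ) := ⟨_, cx_finite (KK.flatMap stairs), Φ (1 : ℕ), a⟩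
  have e : T.space = (lin φP '' real (cx KK)) ×ˢ Set.Icc (0 : ℝ) 1 :=
    Set.Subset.antisymm b.image_subset (stair_surj (fun l hl => ⟨_, _, _, k2 l hl⟩))
  rw [← e]
  have c := checkColl_spec coll_KK
  rw [sem_masks] at c
  exact T.collapsible (Φ_inj (by norm_num)) c

end Pool.Agent.P.MP_e9dd47_gt
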