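import Pool.Agent.P.MP_e9dd47_gt.Stair

/-!
Certificates for the local models of a fake surface.
-/

namespace Pool.Agent.P.MP_e9dd47_gt

open Finsupp

section cone
variable {ι : Type} [DecidableEq ι]

noncomputable def φG (ψ : ι → ℕ) (i : ℕ) : ι → ℝ := fun a => if i = ψ a then 1 else 0

omit [DecidableEq ι] in
lemma lin_φG (ψ : ι → ℕ) (x : V) (a : ι) : lin (φG ψ) x a = x (ψ a) := by
  induction x using Finsupp.induction_linear with
  | zero => simp
  | add a b ha hb => simp only [map_add, Finsupp.add_apply, Pi.add_apply, ha, hb]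
  | single i r => simp [single_apply, φG]

lemma cone_GT (G : SimpleGraph ι) (ψ : ι → ℕ) (hψ : Function.Injective ψ) (h20 : ∀ a, ψ a ≠ 20)
    (L : List (List ℕ)) (h1 : ∀ l ∈ L, ∃ a b, G.Adj a b ∧ l = [20, ψ a, ψ b])
    (h2 : ∀ a b, G.Adj a b → [20, ψ a, ψ b] ∈ L ∨ [20, ψ b, ψ a] ∈ L) (hL : L ≠ []) :
    ∃ T : GT (ι → ℝ), T.F = cx L ∧ T.space = graphCone G ∧ lin T.φ (single 20 1) = 0 ∧
      single 20 1 ∈ real T.F := by
  have e0 : φG ψ 20 = 0 := by ext a; simp [φG, (h20 a).symm]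
  have e1 : ∀ a, φG ψ (ψ a) = Pi.single a 1 := fun a => by
    ext b; simp [φG, Pi.single_apply, hψ.eq_iff, eq_comm]
  have cell : ∀ a b, lin (φG ψ) '' real {[20, ψ a, ψ b].toFinset} =
      convexHull ℝ {0, Pi.single a 1, Pi.single b 1} := fun a b => by
    rw [cell_eq]; simp [Set.image_insert_eq, e0, e1]
  refine ⟨⟨cx L, cx_finite L, φG ψ, ?_⟩, rfl, ?_, by simp [e0], ?_⟩
  · intro x hx y hy e
    have k : ∀ z ∈ real (cx L), ∀ i, i ≠ 20 → (∀ a, i ≠ ψ a) → z i = 0 := by
      rintro z ⟨-, -, _, ⟨l, hl, rfl⟩, hs⟩ i a1 a2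
      obtain ⟨a, b, -, rfl⟩ := h1 l hl
      refine notMem_support_iff.1 (fun c => ?_)
      simpa [a1, a2] using hs c
    have k2 : ∀ i, i ≠ 20 → (x - y) i = 0 := by
      intro i hi
      by_cases c : ∃ a, i = ψ a
      · obtain ⟨a, rfl⟩ := c
        have := congrFun e a
        rw [lin_φG, lin_φG] at this
        simp [this]
      · push Not at c
        simp [k x hx i hi c, k y hy i hi c]
    have k3 : mass (x - y) = (x - y) 20 := by
      rw [mass_eq_sum _ {20} (fun i hi => by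
        by_contra c; exact mem_support_iff.1 hi (k2 i (by simpa using c))), Finset.sum_singleton]
    rw [map_sub, hx.2.1, hy.2.1, sub_self] at k3
    rw [← sub_eq_zero]
    ext i
    by_cases c : i = 20
    · rw [c, ← k3]; rfl
    · exact k2 i c
  · ext z
    simp only [GT.space, graphCone, Set.mem_iUnion]
    constructor
    · rintro ⟨x, hx, rfl⟩
      obtain ⟨_, ⟨l, hl, rfl⟩, hx'⟩ := mem_real_iff.1 hx
      obtain ⟨a, b, ab, rfl⟩ := h1 l hl
      exact ⟨a, b, ab, cell a b ▸ ⟨x, hx', rfl⟩⟩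
    · rintro ⟨a, b, ab, hz⟩
      rcases h2 a b ab with c | c
      · rw [← cell] at hz
        exact Set.image_mono (real_single_subset (F := cx L) ⟨_, c, rfl⟩) hz
      · rw [Set.pair_comm, ← cell] at hz
        exact Set.image_mono (real_single_subset (F := cx L) ⟨_, c, rfl⟩) hz
  · obtain ⟨l, hl⟩ := List.exists_mem_of_ne_nil L hL
    obtain ⟨a, b, -, rfl⟩ := h1 l hl
    exact single_mem_real (F := cx L) ⟨_, hl, rfl⟩ (by simp)

end cone

lemma φP_inj {F : Set (Finset ℕ)} (hF : ∀ s ∈ F, ∀ i ∈ s, i < 20) : Set.InjOn (lin φP) (real F) := by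
  rintro x ⟨-, -, s, hs, sx⟩ y ⟨-, -, t, ht, sy⟩ e
  ext i
  by_cases c : i < 20
  · have := congrFun e ⟨i, c⟩
    rwa [lin_φP, lin_φP] at this
  · rw [notMem_support_iff.1 (fun d => c (hF s hs i (sx d))),
      notMem_support_iff.1 (fun d => c (hF t ht i (sy d)))]

lemma closed_real {F : Set (Finset ℕ)} (hF : F.Finite) : IsClosed (lin φP '' real F) := by
  have : lin φP '' real F = ⋃ s ∈ F, convexHull ℝ (φP '' (s : Set ℕ)) := by
    ext z
    simp only [Set.mem_iUnion, ← cell_eq]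
    constructor
    · rintro ⟨x, hx, rfl⟩
      obtain ⟨s, hs, hx'⟩ := mem_real_iff.1 hx
      exact ⟨s, hs, x, hx', rfl⟩
    · rintro ⟨s, hs, x, hx, rfl⟩
      exact ⟨x, real_single_subset hs hx, rfl⟩
  rw [this]
  exact hF.isClosed_biUnion (fun s _ => ((s.finite_toSet.image _).isCompact_convexHull ℝ).isClosed)

def star (F : Set (Finset ℕ)) (σ : Finset ℕ) : Set (Finset ℕ) := {t | t ∈ F ∧ σ ⊆ t}

lemma locallyCone_of {ι : Type} [DecidableEq ι] (G : SimpleGraph ι) {F : Set (Finset ℕ)}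
    (fin : F.Finite) (hF : ∀ s ∈ F, ∀ i ∈ s, i < 20) {u : V} (hu : u ∈ real F) {T : GT (ι → ℝ)}
    (t1 : T.space = graphCone G) (t2 : lin T.φ (single 20 1) = 0) (t3 : single 20 1 ∈ real T.F)
    (h : Hom T.F (sd (star F u.support) u.support 20)) :
    LocallyCone G (lin φP '' real F) (lin φP u) := by
  obtain ⟨g, g1, g2, g3⟩ := h
  have c : Ctr u.support u := ⟨support_nonempty hu, hu.1, hu.2.1, rfl⟩
  have hst : ∀ s ∈ star F u.support, ∀ i ∈ s, i < 20 := fun s hs => hF s hs.1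
  have h20 : 20 ∉ u.support := by
    obtain ⟨-, -, s, hs, k⟩ := hu
    exact fun a => lt_irrefl _ (hF s hs _ (k a))
  have w := W_bij c h20 (F := star F u.support) (fun t ht a => lt_irrefl _ (hst t ht _ a))
  have b : Set.BijOn (lin φP ∘ (Wmap u 20 ∘ g)) (real T.F) (lin φP '' real (star F u.support)) :=
    (φP_inj hst).bijOn_image.comp (w.comp g2)
  obtain ⟨f, f1, f2⟩ := T.exists_PL ((GPL.linear (lin φP)).comp ((GPL.linear (Wmap u 20)).comp g1))
  refine ⟨lin φP '' real (star F u.support), closed_real (fin.subset (fun t ht => ht.1)),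
    Set.image_mono (real_mono (fun s hs => ⟨s, hs.1, le_rfl⟩)), ?_, f, t1 ▸ f1, ?_, ?_⟩
  · rw [mem_nhdsWithin]
    refine ⟨⋂ a : Fin 20, {z | a.val ∈ u.support → 0 < z a}, isOpen_iInter_of_finite (fun a => ?_),
      ?_, ?_⟩
    · by_cases e : a.val ∈ u.support
      · simp only [e, forall_const]
        exact isOpen_lt continuous_const (continuous_apply a)
      · simp [e]
    · refine Set.mem_iInter.2 (fun a ha => ?_)
      rw [lin_φP]; exact c.pos ha
    · rintro _ ⟨hz, y, ⟨y0, y1, t, ht, sy⟩, rfl⟩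
      refine ⟨y, ⟨y0, y1, t, ⟨ht, fun i hi => sy ?_⟩, sy⟩, rfl⟩
      obtain ⟨-, -, s, hs, k⟩ := hu
      have := Set.mem_iInter.1 hz ⟨i, hF s hs i (k hi)⟩ hi
      rw [lin_φP] at this
      exact mem_support_iff.2 this.ne'
  · rw [← t1]
    refine ⟨?_, ?_, ?_⟩
    · rintro _ ⟨x, hx, rfl⟩
      rw [f2 x hx]; exact b.mapsTo hx
    · rintro _ ⟨x, hx, rfl⟩ _ ⟨y, hy, rfl⟩ e
      rw [f2 x hx, f2 y hy] at e
      rw [b.injOn hx hy e]
    · intro z hz
      obtain ⟨x, hx, rfl⟩ := b.surjOn hz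
      exact ⟨_, ⟨x, hx, rfl⟩, f2 x hx⟩
  · rw [← t2, f2 _ t3]
    simp [g3, Wmap_apply]

/-- the three local models -/
def Good (P : Set (Fin 20 → ℝ)) (x : Fin 20 → ℝ) : Prop :=
  LocallyCone (⊤ : SimpleGraph (Fin 3)) P x ∨
    LocallyCone (completeBipartiteGraph (Fin 2) (Fin 3)) P x ∨
    LocallyCone (⊤ : SimpleGraph (Fin 4)) P x

def model (p : List ℕ) : List (List ℕ) :=
  match p with
  | [a, b, c] => [[20, a, b], [20, a, c], [20, b, c]]
  | [a, b, c, d] => [[20, a, b], [20, a, c], [20, a, d], [20, b, c], [20, b, d], [20, c, d]]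
  | [a, b, c, d, e] => [[20, a, c], [20, a, d], [20, a, e], [20, b, c], [20, b, d], [20, b, e]]
  | _ => []

lemma good_of {F : Set (Finset ℕ)} (fin : F.Finite) (hF : ∀ s ∈ F, ∀ i ∈ s, i < 20) {u : V}
    (hu : u ∈ real F) {p : List ℕ} (hp : (20 :: p).Nodup)
    (hl : p.length = 3 ∨ p.length = 4 ∨ p.length = 5)
    (h : Hom (cx (model p)) (sd (star F u.support) u.support 20)) :
    Good (lin φP '' real F) (lin φP u) := by
  have inj : Function.Injective p.get := (List.nodup_cons.1 hp).2.injective_get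
  have h20 : ∀ a, p.get a ≠ 20 := fun a e => (List.nodup_cons.1 hp).1 (e ▸ List.get_mem p a)
  rcases hl with hl | hl | hl
  · obtain ⟨a, b, c, rfl⟩ := List.length_eq_three.1 hl
    obtain ⟨T, t0, t1, t2, t3⟩ := cone_GT (⊤ : SimpleGraph (Fin 3)) [a, b, c].get inj h20
      (model [a, b, c]) (by
        simp only [model, List.forall_mem_cons, List.not_mem_nil, false_imp_iff, implies_true]
        exact ⟨⟨0, 1, by decide, rfl⟩, ⟨0, 2, by decide, rfl⟩, ⟨1, 2, by decide, rfl⟩, trivial⟩)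
      (by intro i j hij; fin_cases i <;> fin_cases j <;> simp [model] at hij ⊢) (by simp [model])
    exact Or.inl (locallyCone_of _ fin hF hu t1 t2 t3 (t0 ▸ h))
  · obtain ⟨a, b, c, d, rfl⟩ : ∃ a b c d, p = [a, b, c, d] := by
      match p, hl with
      | [a, b, c, d], _ => exact ⟨a, b, c, d, rfl⟩
    obtain ⟨T, t0, t1, t2, t3⟩ := cone_GT (⊤ : SimpleGraph (Fin 4)) [a, b, c, d].get inj h20
      (model [a, b, c, d]) (by
        simp only [model, List.forall_mem_cons, List.not_mem_nil, false_imp_iff, implies_true]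
        exact ⟨⟨0, 1, by decide, rfl⟩, ⟨0, 2, by decide, rfl⟩, ⟨0, 3, by decide, rfl⟩,
          ⟨1, 2, by decide, rfl⟩, ⟨1, 3, by decide, rfl⟩, ⟨2, 3, by decide, rfl⟩, trivial⟩)
      (by intro i j hij; fin_cases i <;> fin_cases j <;> simp [model] at hij ⊢) (by simp [model])
    exact Or.inr (Or.inr (locallyCone_of _ fin hF hu t1 t2 t3 (t0 ▸ h)))
  · obtain ⟨a, b, c, d, e, rfl⟩ : ∃ a b c d e, p = [a, b, c, d, e] := by
      match p, hl with
      | [a, b, c, d, e], _ => exact ⟨a, b, c, d, e, rfl⟩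
    obtain ⟨T, t0, t1, t2, t3⟩ := cone_GT (completeBipartiteGraph (Fin 2) (Fin 3))
      (fun s => [a, b, c, d, e].get (finSumFinEquiv (m := 2) (n := 3) s))
      (inj.comp finSumFinEquiv.injective) (fun s => h20 _)
      (model [a, b, c, d, e]) (by
        simp only [model, List.forall_mem_cons, List.not_mem_nil, false_imp_iff, implies_true]
        exact ⟨⟨.inl 0, .inr 0, by simp, rfl⟩, ⟨.inl 0, .inr 1, by simp, rfl⟩,
          ⟨.inl 0, .inr 2, by simp, rfl⟩, ⟨.inl 1, .inr 0, by simp, rfl⟩,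
          ⟨.inl 1, .inr 1, by simp, rfl⟩, ⟨.inl 1, .inr 2, by simp, rfl⟩, trivial⟩)
      (by
        rintro (i | i) (j | j) hij
        · simp at hij
        · left; fin_cases i <;> fin_cases j <;> simp [model] <;> tauto
        · right; fin_cases i <;> fin_cases j <;> simp [model] <;> tauto
        · simp at hij) (by simp [model])
    exact Or.inr (Or.inl (locallyCone_of _ fin hF hu t1 t2 t3 (t0 ▸ h)))

noncomputable def starL (s : ℕ) (A : List ℕ) : List ℕ :=
  List.rec [] (fun f _ r => Bool.rec r (f :: r) (subm s f)) A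

lemma sem_starL (s : ℕ) (A : List ℕ) : sem (starL s A) = star (sem A) (bits s) := by
  have : ∀ g, g ∈ starL s A ↔ g ∈ A ∧ subm s g = true := by
    intro g
    induction A with
    | nil => simp [starL]
    | cons f A ih =>
      have e : starL s (f :: A) = Bool.rec (starL s A) (f :: starL s A) (subm s f) := rfl
      rw [e]
      cases h : subm s f
      · simp only [ih, List.mem_cons]
        constructor
        · rintro ⟨a, b⟩; exact ⟨Or.inr a, b⟩
        · rintro ⟨rfl | a, b⟩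
          · rw [h] at b; cases b
          · exact ⟨a, b⟩
      · simp only [ih, List.mem_cons]
        constructor
        · rintro (rfl | ⟨a, b⟩)
          · exact ⟨Or.inl rfl, h⟩
          · exact ⟨Or.inr a, b⟩
        · rintro ⟨rfl | a, b⟩
          · exact Or.inl rfl
          · exact Or.inr ⟨a, b⟩
  ext t
  simp only [sem, star, this, subm_iff, Set.mem_ofPred_eq]
  constructor
  · rintro ⟨g, ⟨a, b⟩, rfl⟩; exact ⟨⟨g, a, rfl⟩, b⟩
  · rintro ⟨⟨g, a, rfl⟩, b⟩; exact ⟨g, ⟨a, b⟩, rfl⟩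

abbrev Cert := List ℕ × List ℕ × List (ℕ × ℕ × ℕ) × List (ℕ × ℕ × ℕ)

noncomputable def checkCert (K : List (List ℕ)) (c : Cert) : Bool :=
  decide ((20 :: c.2.1).Nodup) &&
    decide (c.2.1.length = 3 ∨ c.2.1.length = 4 ∨ c.2.1.length = 5) &&
    checkHom c.2.2.1 c.2.2.2 (masks (model c.2.1))
      (subF (maskOf c.1) 20 c.1 (starL (maskOf c.1) (masks K)))

lemma fake_of {K : List (List ℕ)} (hK : ∀ l ∈ K, ∀ i ∈ l, i < 20) {C : List Cert}
    (h1 : C.all (checkCert K) = true)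
    (h2 : ∀ l ∈ K, ∀ s ∈ l.sublists, s = [] ∨ s ∈ C.map Prod.fst)
    (h3 : ∀ l ∈ K, ∃ l' ∈ K, 0 ∈ l' ∧ ∃ a ∈ l, a ∈ l') (h4 : ∃ l ∈ K, 0 ∈ l) :
    IsFakeSurface (lin φP '' real (cx K)) := by
  have hF : ∀ s ∈ cx K, ∀ i ∈ s, i < 20 := by
    rintro _ ⟨l, hl, rfl⟩ i hi
    exact hK l hl i (List.mem_toFinset.1 hi)
  let T : GT (Fin 20 → ℝ) := ⟨cx K, cx_finite K, φP, φP_inj hF⟩
  refine ⟨⟨T.toComplex, T.toComplex_tri⟩, ⟨?_, ?_⟩, ?_⟩
  · obtain ⟨l, hl, a⟩ := h4
    exact ⟨_, _, single_mem_real (F := cx K) ⟨l, hl, rfl⟩ (List.mem_toFinset.2 a), rfl⟩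
  · refine isPreconnected_of_forall (φP 0) ?_
    rintro _ ⟨x, hx, rfl⟩
    obtain ⟨_, ⟨l, hl, rfl⟩, hx'⟩ := mem_real_iff.1 hx
    obtain ⟨l', hl', a0, a, a1, a2⟩ := h3 l hl
    have cv : ∀ s, IsPreconnected (T.cell s) := fun s => by
      rw [GT.cell, cell_eq]; exact (convex_convexHull ℝ _).isPreconnected
    refine ⟨T.cell l'.toFinset ∪ T.cell l.toFinset, Set.union_subset
      (Set.image_mono (real_single_subset ⟨l', hl', rfl⟩))
      (Set.image_mono (real_single_subset ⟨l, hl, rfl⟩)),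
      Or.inl (T.vertex_mem_cell (List.mem_toFinset.2 a0)), Or.inr ⟨x, hx', rfl⟩, ?_⟩
    exact IsPreconnected.union (T.φ a) (T.vertex_mem_cell (List.mem_toFinset.2 a2))
      (T.vertex_mem_cell (List.mem_toFinset.2 a1)) (cv _) (cv _)
  · rintro _ ⟨u, hu, rfl⟩
    obtain ⟨-, -, _, ⟨l, hl, rfl⟩, hs⟩ := id hu
    have e : (l.filter (fun i => i ∈ u.support)).toFinset = u.support := by
      ext i
      simp only [List.toFinset_filter, Finset.mem_filter, decide_eq_true_eq, and_iff_right_iff_imp]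
      exact fun a => hs a
    rcases h2 l hl _ (List.mem_sublists.2 (List.filter_sublist (p := fun i => i ∈ u.support))) with
      a | a
    · rw [a] at e
      exact absurd e.symm (support_nonempty hu).ne_empty
    · obtain ⟨c, hc, k⟩ := List.mem_map.1 a
      have := List.all_eq_true.1 h1 c hc
      simp only [checkCert, Bool.and_eq_true, decide_eq_true_eq] at this
      have z := checkHom_spec this.2
      rw [sem_subF, sem_starL, sem_masks, sem_masks, bits_maskOf, k, e] at z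
      exact good_of (cx_finite K) hF hu this.1.1 this.1.2 z

end Pool.Agent.P.MP_e9dd47_gt
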