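import Pool.Agent.P.MP_e9dd47_gt.Basic

/-!
Geometric triangulations given by a vertex map that is injective on the standard realization,
refinements, and maps that are piecewise affine after refinement.
-/

namespace Pool.Agent.P.MP_e9dd47_gt

open Finsupp

variable {E : Type} [AddCommGroup E] [Module ℝ E]

lemma cell_eq (φ : ℕ → E) (s : Finset ℕ) :
    lin φ '' real {s} = convexHull ℝ (φ '' (s : Set ℕ)) := by
  apply Set.Subset.antisymm
  · rintro _ ⟨x, hx, rfl⟩
    obtain ⟨h0, h1, hs⟩ := mem_real_single.1 hx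
    rw [lin_eq_sum φ x s hs]
    refine (convex_convexHull ℝ _).sum_mem (fun i _ => h0 i) (by rw [← mass_eq_sum x s hs, h1])
      (fun i hi => subset_convexHull _ _ ⟨i, hi, rfl⟩)
  · apply convexHull_min
    · rintro _ ⟨i, hi, rfl⟩
      exact ⟨single i 1, single_mem_real (Set.mem_singleton s) hi, by simp⟩
    · refine Convex.linear_image ?_ _
      intro x hx y hy a b ha hb hab
      obtain ⟨h0, h1, hs⟩ := mem_real_single.1 hx
      obtain ⟨k0, k1, ks⟩ := mem_real_single.1 hy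
      refine mem_real_single.2 ⟨fun i => ?_, by simp [h1, k1, hab], ?_⟩
      · have := h0 i; have := k0 i
        simp only [Finsupp.add_apply, Finsupp.smul_apply, smul_eq_mul]; positivity
      · exact support_add.trans (Finset.union_subset (support_smul.trans hs) (support_smul.trans ks))

lemma lin_inj_aux {φ : ℕ → E} {s : Finset ℕ} (h : Set.InjOn (lin φ) (real {s})) {d : V}
    (hd : d.support ⊆ s) (h1 : mass d = 0) (h2 : lin φ d = 0) : d = 0 := by
  set p : V := d.mapRange (fun r => max r 0) (by simp) with hp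
  set q : V := d.mapRange (fun r => max (-r) 0) (by simp) with hq
  have hpq : d = p - q := by
    ext i; simp only [hp, hq, Finsupp.sub_apply, mapRange_apply]
    rcases le_total (d i) 0 with e | e
    · rw [max_eq_right e, max_eq_left (by linarith)]; ring
    · rw [max_eq_left e, max_eq_right (by linarith)]; ring
  have p0 : ∀ i, 0 ≤ p i := fun i => by simp [hp]
  have q0 : ∀ i, 0 ≤ q i := fun i => by simp [hq]
  have ps : p.support ⊆ s := support_mapRange.trans hd
  have qs : q.support ⊆ s := support_mapRange.trans hd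
  have hm : mass p = mass q := by rw [hpq, map_sub] at h1; linarith
  have hl : lin φ p = lin φ q := by rw [hpq, map_sub] at h2; exact sub_eq_zero.1 h2
  rcases (mass_nonneg p0).eq_or_lt with e | e
  · rw [hpq, eq_zero_of_mass p0 e.symm, eq_zero_of_mass q0 (hm ▸ e.symm), sub_zero]
  · have key : ∀ r : V, (∀ i, 0 ≤ r i) → r.support ⊆ s → mass r = mass p →
        (mass p)⁻¹ • r ∈ real {s} := fun r r0 rs rm =>
      mem_real_single.2 ⟨fun i => by
        have := r0 i
        simp only [Finsupp.smul_apply, smul_eq_mul]; positivity,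
        by simp [rm, e.ne'], support_smul.trans rs⟩
    have := h (key p p0 ps rfl) (key q q0 qs hm.symm) (by simp [hl])
    have h3 : p = q := smul_right_injective V (inv_ne_zero e.ne') this
    rw [hpq, h3, sub_self]

lemma exists_affine_inverse {φ : ℕ → E} {s : Finset ℕ} (h : Set.InjOn (lin φ) (real {s})) :
    ∃ g : E →ᵃ[ℝ] V, ∀ x ∈ real {s}, g (lin φ x) = x := by
  let S : Submodule ℝ V := Finsupp.supported ℝ ℝ (s : Set ℕ)
  let Φ : S →ₗ[ℝ] E × ℝ := ((lin φ).prod mass).comp S.subtype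
  have hΦ : LinearMap.ker Φ = ⊥ := by
    rw [LinearMap.ker_eq_bot']
    intro d hd
    have hd' : lin φ d.1 = 0 ∧ mass d.1 = 0 := by
      simpa [Φ, Prod.ext_iff] using hd
    ext1
    exact lin_inj_aux h (fun i hi => (Finsupp.mem_supported ℝ _).1 d.2 hi) hd'.2 hd'.1
  obtain ⟨G, hG⟩ := LinearMap.exists_leftInverse_of_injective (K := ℝ) (V := S) (V' := E × ℝ) Φ hΦ
  refine ⟨(S.subtype.comp G).toAffineMap.comp
    ((AffineMap.id ℝ E).prod (AffineMap.const ℝ E (1 : ℝ))), fun x hx => ?_⟩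
  obtain ⟨-, h1, hs⟩ := mem_real_single.1 hx
  have hxS : x ∈ S := (Finsupp.mem_supported ℝ _).2 (fun i hi => hs hi)
  have := congrArg (fun L => (L ⟨x, hxS⟩).1) hG
  simpa [Φ, h1] using this

/-- a geometric triangulation -/
structure GT (E : Type) [AddCommGroup E] [Module ℝ E] where
  F : Set (Finset ℕ)
  fin : F.Finite
  φ : ℕ → E
  inj : Set.InjOn (lin φ) (real F)

namespace GT

def space (T : GT E) : Set E := lin T.φ '' real T.F

def cell (T : GT E) (s : Finset ℕ) : Set E := lin T.φ '' real {s}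

def AffOn {W : Type} [AddCommGroup W] [Module ℝ W] (T : GT E) (f : E → W) : Prop :=
  ∀ s ∈ T.F, ∃ g : E →ᵃ[ℝ] W, Set.EqOn f g (T.cell s)

def Refines (T' T : GT E) : Prop :=
  T'.space = T.space ∧ ∀ s' ∈ T'.F, ∃ s ∈ T.F, T'.cell s' ⊆ T.cell s

lemma Refines.refl (T : GT E) : T.Refines T := ⟨rfl, fun s hs => ⟨s, hs, le_rfl⟩⟩

lemma Refines.trans {T₁ T₂ T₃ : GT E} (h : T₁.Refines T₂) (k : T₂.Refines T₃) : T₁.Refines T₃ := by
  refine ⟨h.1.trans k.1, fun s hs => ?_⟩
  obtain ⟨t, ht, h1⟩ := h.2 s hs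
  obtain ⟨u, hu, h2⟩ := k.2 t ht
  exact ⟨u, hu, h1.trans h2⟩

lemma AffOn.refine {W : Type} [AddCommGroup W] [Module ℝ W] {T' T : GT E} {f : E → W}
    (h : T.AffOn f) (k : T'.Refines T) : T'.AffOn f := by
  intro s hs
  obtain ⟨t, ht, h1⟩ := k.2 s hs
  obtain ⟨g, hg⟩ := h t ht
  exact ⟨g, hg.mono h1⟩

lemma inj_cell (T : GT E) {s : Finset ℕ} (hs : s ∈ T.F) : Set.InjOn (lin T.φ) (real {s}) :=
  T.inj.mono (real_single_subset hs)

/-- barycentric coordinates -/
lemma exists_coord (T : GT E) :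
    ∃ β : E → V, T.AffOn β ∧ ∀ x ∈ real T.F, β (lin T.φ x) = x := by
  refine ⟨Function.invFunOn (lin T.φ) (real T.F), fun s hs => ?_, fun x hx => ?_⟩
  · obtain ⟨g, hg⟩ := exists_affine_inverse (T.inj_cell hs)
    refine ⟨g, ?_⟩
    rintro _ ⟨x, hx, rfl⟩
    rw [hg x hx]
    exact T.inj.leftInvOn_invFunOn (real_single_subset hs hx)
  · exact T.inj.leftInvOn_invFunOn hx

lemma lin_update (φ : ℕ → E) (l : V) (w : ℕ) (hl : l w = 0) (y : V) :
    lin (Function.update φ w (lin φ l)) y = lin φ (Wmap l w y) := by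
  induction y using Finsupp.induction_linear with
  | zero => simp
  | add a b ha hb => simp only [map_add, ha, hb]
  | single i r =>
    by_cases e : i = w
    · subst e; simp [Wmap_apply, smul_sub]
    · simp [Wmap_apply, e]

/-- stellar subdivision of a geometric triangulation -/
noncomputable def stellar (T : GT E) {σ : Finset ℕ} {l : V} (h : Ctr σ l) {w : ℕ} (hw : w ∉ σ)
    (hF : ∀ t ∈ T.F, w ∉ t) : GT E where
  F := sd T.F σ w
  fin := sd_finite T.fin σ w
  φ := Function.update T.φ w (lin T.φ l)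
  inj := fun x hx y hy e => by
    rw [lin_update _ _ _ (h.zero hw), lin_update _ _ _ (h.zero hw)] at e
    exact (W_bij h hw hF).injOn hx hy (T.inj (W_mem h hF hx) (W_mem h hF hy) e)

lemma stellar_refines (T : GT E) {σ : Finset ℕ} {l : V} (h : Ctr σ l) {w : ℕ} (hw : w ∉ σ)
    (hF : ∀ t ∈ T.F, w ∉ t) : (T.stellar h hw hF).Refines T := by
  constructor
  · ext z
    simp only [space, stellar, Set.mem_image, lin_update _ _ _ (h.zero hw)]
    constructor
    · rintro ⟨x, hx, rfl⟩; exact ⟨_, W_mem h hF hx, rfl⟩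
    · rintro ⟨x, hx, rfl⟩
      obtain ⟨y, hy, rfl⟩ := (W_bij h hw hF).surjOn hx
      exact ⟨y, hy, rfl⟩
  · intro s' hs'
    have : ∃ s ∈ T.F, s' ∈ sd {s} σ w := by
      rcases hs' with ⟨ht, hσ⟩ | ⟨t, ht, hσ, v, hv, rfl⟩
      · exact ⟨s', ht, Or.inl ⟨rfl, hσ⟩⟩
      · exact ⟨t, ht, Or.inr ⟨t, rfl, hσ, v, hv, rfl⟩⟩
    obtain ⟨s, hs, hh⟩ := this
    refine ⟨s, hs, ?_⟩
    rintro _ ⟨x, hx, rfl⟩
    refine ⟨Wmap l w x, W_mem h ?_ (real_single_subset hh hx), ?_⟩
    · rintro t rfl; exact hF _ hs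
    · simp only [stellar, lin_update _ _ _ (h.zero hw)]

lemma vertex_mem_cell (T : GT E) {s : Finset ℕ} {i : ℕ} (hi : i ∈ s) : T.φ i ∈ T.cell s :=
  ⟨single i 1, single_mem_real (Set.mem_singleton s) hi, by simp⟩

lemma affine_lin {W : Type} [AddCommGroup W] [Module ℝ W] (g : E →ᵃ[ℝ] W) (φ : ℕ → E) (x : V)
    (h1 : mass x = 1) : g (lin φ x) = lin (fun i => g (φ i)) x := by
  have e : ∀ y : V, lin (fun i => g (φ i)) y = g.linear (lin φ y) + mass y • g 0 := by
    intro y
    induction y using Finsupp.induction_linear with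
    | zero => simp
    | add a b ha hb => simp only [map_add, ha, hb, add_smul]; abel
    | single i r =>
      have := g.map_vadd 0 (φ i)
      simp only [vadd_eq_add, add_zero] at this
      simp [this]
  have := g.map_vadd 0 (lin φ x)
  simp only [vadd_eq_add, add_zero] at this
  rw [e, h1, one_smul, this]

def cross (T : GT E) (f : E → ℝ) : Set (ℕ × ℕ) :=
  {p | ∃ s ∈ T.F, p.1 ∈ s ∧ p.2 ∈ s ∧ f (T.φ p.1) < 0 ∧ 0 < f (T.φ p.2)}

lemma cross_finite (T : GT E) (f : E → ℝ) : (T.cross f).Finite := by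
  refine (T.fin.biUnion (fun s _ => (s ×ˢ s).finite_toSet)).subset ?_
  rintro p ⟨s, hs, h1, h2, -⟩
  exact Set.mem_biUnion hs (by simp [h1, h2])

lemma cut_step (T : GT E) (f : E → ℝ) (hf : T.AffOn f) {p : ℕ × ℕ} (hp : p ∈ T.cross f) :
    ∃ T' : GT E, T'.Refines T ∧ T'.cross f ⊆ T.cross f \ {p} := by
  obtain ⟨u, v⟩ := p
  obtain ⟨s, hs, hu, hv, fu, fv⟩ := hp
  simp only at hu hv fu fv
  have huv : u ≠ v := by rintro rfl; linarith
  set a := f (T.φ v) / (f (T.φ v) - f (T.φ u)) with ha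
  set b := -f (T.φ u) / (f (T.φ v) - f (T.φ u)) with hb
  have hD : 0 < f (T.φ v) - f (T.φ u) := by linarith
  have a0 : 0 < a := div_pos fv hD
  have b0 : 0 < b := div_pos (by linarith) hD
  have hab : a + b = 1 := by rw [ha, hb]; field_simp; ring
  let l : V := single u a + single v b
  have hc : Ctr {u, v} l := by
    refine ⟨by simp, fun i => ?_, by simp [l, hab], ?_⟩
    · simp only [l, Finsupp.add_apply, single_apply]; split_ifs <;> linarith
    · ext i
      simp only [l, mem_support_iff, Finsupp.add_apply, single_apply, Finset.mem_insert,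
        Finset.mem_singleton]
      split_ifs with e1 e2 e2
      · exact absurd (e1.trans e2.symm) huv
      · simp [← e1, a0.ne']
      · simp [← e2, b0.ne']
      · simp [Ne.symm e1, Ne.symm e2]
  obtain ⟨w, hw, hF⟩ := exists_fresh T.fin {u, v}
  refine ⟨T.stellar hc hw hF, T.stellar_refines hc hw hF, ?_⟩
  have f0 : f (lin T.φ l) = 0 := by
    obtain ⟨g, hg⟩ := hf s hs
    have hl : l ∈ real {s} := mem_real_single.2 ⟨hc.nonneg, hc.mass, by
      rw [hc.supp]; intro i hi; simp at hi; rcases hi with rfl | rfl <;> assumption⟩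
    rw [hg ⟨l, hl, rfl⟩, affine_lin g _ _ hc.mass]
    simp only [l, map_add, lin_single, smul_eq_mul]
    rw [← hg (T.vertex_mem_cell hu), ← hg (T.vertex_mem_cell hv), ha, hb]
    field_simp; ring
  rintro ⟨p, q⟩ ⟨t', ht', h1, h2, fp, fq⟩
  simp only [stellar] at ht' h1 h2 fp fq
  have pw : p ≠ w := by rintro rfl; rw [Function.update_self, f0] at fp; exact lt_irrefl _ fp
  have qw : q ≠ w := by rintro rfl; rw [Function.update_self, f0] at fq; exact lt_irrefl _ fq
  rw [Function.update_of_ne pw] at fp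
  rw [Function.update_of_ne qw] at fq
  rcases ht' with ⟨ht, hσ⟩ | ⟨t, ht, hσ, z, hz, rfl⟩
  · refine ⟨⟨t', ht, h1, h2, fp, fq⟩, ?_⟩
    intro e
    obtain ⟨rfl, rfl⟩ := Prod.ext_iff.1 e
    apply hσ
    intro i hi; simp at hi; rcases hi with rfl | rfl <;> assumption
  · simp only [Finset.mem_insert, pw, qw, false_or, Finset.mem_erase] at h1 h2
    refine ⟨⟨t, ht, h1.2, h2.2, fp, fq⟩, ?_⟩
    intro e
    obtain ⟨rfl, rfl⟩ := Prod.ext_iff.1 e
    simp at hz
    rcases hz with rfl | rfl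
    · exact h1.1 rfl
    · exact h2.1 rfl

lemma cut (f : E → ℝ) : ∀ (n : ℕ) (T : GT E), T.AffOn f → (T.cross f).ncard = n →
    ∃ T' : GT E, T'.Refines T ∧ T'.cross f = ∅ := by
  intro n
  induction n using Nat.strong_induction_on with
  | _ n ih =>
    intro T hf hn
    rcases (T.cross f).eq_empty_or_nonempty with e | ⟨p, hp⟩
    · exact ⟨T, Refines.refl T, e⟩
    · obtain ⟨T₁, h1, h2⟩ := T.cut_step f hf hp
      have : (T₁.cross f).ncard < n := by
        rw [← hn]
        exact Set.ncard_lt_ncard (Set.ssubset_of_subset_of_ssubset h2 (Set.sdiff_singleton_ssubset.2 hp))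
          (T.cross_finite f)
      obtain ⟨T₂, k1, k2⟩ := ih _ this T₁ (hf.refine h1) rfl
      exact ⟨T₂, k1.trans h1, k2⟩

lemma sign_of_cross (T : GT E) (f : E → ℝ) (hf : T.AffOn f) (h : T.cross f = ∅) {s : Finset ℕ}
    (hs : s ∈ T.F) : (∀ z ∈ T.cell s, 0 ≤ f z) ∨ (∀ z ∈ T.cell s, f z ≤ 0) := by
  obtain ⟨g, hg⟩ := hf s hs
  have key : ∀ x ∈ real {s}, f (lin T.φ x) = ∑ i ∈ s, x i * f (T.φ i) := by
    intro x hx
    obtain ⟨-, h1, h2⟩ := mem_real_single.1 hx
    rw [hg ⟨x, hx, rfl⟩, affine_lin g _ _ h1, lin_eq_sum _ x s h2]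
    exact Finset.sum_congr rfl (fun i hi => by rw [hg (T.vertex_mem_cell hi), smul_eq_mul])
  by_cases e : ∀ i ∈ s, 0 ≤ f (T.φ i)
  · left
    rintro _ ⟨x, hx, rfl⟩
    rw [key x hx]
    exact Finset.sum_nonneg (fun i hi => mul_nonneg (hx.1 i) (e i hi))
  · right
    push Not at e
    obtain ⟨u, hu, fu⟩ := e
    rintro _ ⟨x, hx, rfl⟩
    rw [key x hx]
    refine Finset.sum_nonpos (fun i hi => mul_nonpos_of_nonneg_of_nonpos (hx.1 i) ?_)
    by_contra fi
    have : (u, i) ∈ T.cross f := ⟨s, hs, hu, hi, fu, not_le.1 fi⟩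
    rw [h] at this
    exact this

end GT

/-- maps that are piecewise affine on every triangulated source after refinement -/
def GPL {A B : Type} [AddCommGroup A] [Module ℝ A] [AddCommGroup B] [Module ℝ B] (g : A → B) :
    Prop :=
  ∀ (E : Type) [AddCommGroup E] [Module ℝ E] (T : GT E) (f : E → A), T.AffOn f →
    ∃ T' : GT E, T'.Refines T ∧ T'.AffOn (g ∘ f)

section
variable {A B C : Type} [AddCommGroup A] [Module ℝ A] [AddCommGroup B] [Module ℝ B]
  [AddCommGroup C] [Module ℝ C]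

lemma GPL.affine (g : A →ᵃ[ℝ] B) : GPL g := by
  intro E _ _ T f hf
  refine ⟨T, GT.Refines.refl T, fun s hs => ?_⟩
  obtain ⟨k, hk⟩ := hf s hs
  exact ⟨g.comp k, fun z hz => by simp [hk hz]⟩

lemma GPL.linear (g : A →ₗ[ℝ] B) : GPL g := GPL.affine g.toAffineMap

lemma GPL.id : GPL (fun x : A => x) := GPL.affine (AffineMap.id ℝ A)

lemma GPL.comp {g : B → C} {k : A → B} (hg : GPL g) (hk : GPL k) : GPL (g ∘ k) := by
  intro E _ _ T f hf
  obtain ⟨T₁, h1, h2⟩ := hk E T f hf
  obtain ⟨T₂, k1, k2⟩ := hg E T₁ _ h2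
  exact ⟨T₂, k1.trans h1, k2⟩

lemma GPL.prod {g : A → B} {k : A → C} (hg : GPL g) (hk : GPL k) : GPL (fun x => (g x, k x)) := by
  intro E _ _ T f hf
  obtain ⟨T₁, h1, h2⟩ := hk E T f hf
  obtain ⟨T₂, k1, k2⟩ := hg E T₁ _ (hf.refine h1)
  refine ⟨T₂, k1.trans h1, fun s hs => ?_⟩
  obtain ⟨a, ha⟩ := k2 s hs
  obtain ⟨b, hb⟩ := (h2.refine k1) s hs
  exact ⟨a.prod b, fun z hz => Prod.ext (ha hz) (hb hz)⟩

lemma GPL.min2 : GPL (fun p : ℝ × ℝ => min p.1 p.2) := by
  intro E _ _ T f hf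
  have h1 : T.AffOn (fun z => (f z).1 - (f z).2) := by
    intro s hs
    obtain ⟨k, hk⟩ := hf s hs
    exact ⟨(LinearMap.fst ℝ ℝ ℝ - LinearMap.snd ℝ ℝ ℝ).toAffineMap.comp k,
      fun z hz => by simp [hk hz]⟩
  obtain ⟨T', k1, k2⟩ := GT.cut _ _ T h1 rfl
  refine ⟨T', k1, fun s hs => ?_⟩
  obtain ⟨k, hk⟩ := (hf.refine k1) s hs
  rcases T'.sign_of_cross _ (h1.refine k1) k2 hs with e | e
  · refine ⟨(LinearMap.snd ℝ ℝ ℝ).toAffineMap.comp k, fun z hz => ?_⟩
    have := e z hz
    simp only [Function.comp, ← hk hz, AffineMap.coe_comp, LinearMap.coe_toAffineMap,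
      LinearMap.snd_apply]
    exact min_eq_right (by linarith)
  · refine ⟨(LinearMap.fst ℝ ℝ ℝ).toAffineMap.comp k, fun z hz => ?_⟩
    have := e z hz
    simp only [Function.comp, ← hk hz, AffineMap.coe_comp, LinearMap.coe_toAffineMap,
      LinearMap.fst_apply]
    exact min_eq_left (by linarith)

lemma GPL.inf' {ι : Type} (g : ι → A → ℝ) (hg : ∀ i, GPL (g i)) {s : Finset ι} (hs : s.Nonempty) :
    GPL (fun x => s.inf' hs (fun i => g i x)) := by
  induction hs using Finset.Nonempty.cons_induction with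
  | singleton a => simpa using hg a
  | cons a s ha hs ih =>
    have := GPL.min2.comp ((hg a).prod ih)
    convert this using 2
    simp [Finset.inf'_cons hs]

lemma GPL.mn (σ : Finset ℕ) (l : V) : GPL (mn σ l) := by
  by_cases h : σ.Nonempty
  · have := GPL.inf' (fun i (x : V) => x i / l i) (fun i => by
      have := GPL.linear ((l i)⁻¹ • (Finsupp.lapply i : V →ₗ[ℝ] ℝ))
      convert this using 2
      simp [div_eq_inv_mul]) h
    convert this using 2
    simp [MP_e9dd47_gt.mn, h]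
  · have := GPL.linear (0 : V →ₗ[ℝ] ℝ)
    convert this using 1
    ext x
    simp [MP_e9dd47_gt.mn, h]

lemma GPL.Umap (σ : Finset ℕ) (l : V) (w : ℕ) : GPL (Umap σ l w) := by
  have := (GPL.linear (LinearMap.fst ℝ V ℝ + (LinearMap.snd ℝ V ℝ).smulRight
    (single w 1 - l))).comp (GPL.id.prod (GPL.mn σ l))
  convert this using 1
  ext1 x
  simp [MP_e9dd47_gt.Umap]

end

end Pool.Agent.P.MP_e9dd47_gt
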