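import Pool.Agent.P.MP_e9dd47_gt.Bridge

/-!
Bit mask complexes, bistellar flips, stellar subdivisions and collapses as checkable operations.
-/

namespace Pool.Agent.P.MP_e9dd47_gt

open Finsupp

def bits (m : ℕ) : Finset ℕ := (Finset.range m).filter (fun i => m.testBit i)

lemma mem_bits {m i : ℕ} : i ∈ bits m ↔ m.testBit i = true := by
  simp only [bits, Finset.mem_filter, Finset.mem_range, and_iff_right_iff_imp]
  intro h
  exact lt_of_lt_of_le Nat.lt_two_pow_self (Nat.ge_two_pow_of_testBit h)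

def sem (A : List ℕ) : Set (Finset ℕ) := {s | ∃ m ∈ A, s = bits m}

lemma sem_finite (A : List ℕ) : (sem A).Finite :=
  ((A.finite_toSet).image bits).subset (fun _ ⟨m, hm, e⟩ => ⟨m, hm, e.symm⟩)

def bit (i : ℕ) : ℕ := Nat.shiftLeft 1 i

noncomputable def maskOf (l : List ℕ) : ℕ := List.rec 0 (fun i _ r => Nat.lor (bit i) r) l

def subm (s f : ℕ) : Bool := Nat.beq (Nat.land s f) s

def del (m i : ℕ) : ℕ := Nat.xor (Nat.lor m (bit i)) (bit i)

lemma testBit_bit (i j : ℕ) : (bit i).testBit j = decide (i = j) := by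
  have : bit i = 2 ^ i := by simp [bit, Nat.shiftLeft_eq]
  rw [this, Nat.testBit_two_pow]

lemma bits_bit (i : ℕ) : bits (bit i) = {i} := by
  ext j; simp [mem_bits, testBit_bit, eq_comm]

lemma bits_lor (a b : ℕ) : bits (Nat.lor a b) = bits a ∪ bits b := by
  ext j
  simp only [mem_bits, Finset.mem_union]
  rw [show Nat.lor a b = a ||| b from rfl, Nat.testBit_or]; simp

lemma bits_land (a b : ℕ) : bits (Nat.land a b) = bits a ∩ bits b := by
  ext j
  simp only [mem_bits, Finset.mem_inter]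
  rw [show Nat.land a b = a &&& b from rfl, Nat.testBit_and]; simp

lemma bits_zero : bits 0 = ∅ := by simp [bits]

lemma bits_del (m i : ℕ) : bits (del m i) = (bits m).erase i := by
  ext j
  simp only [mem_bits, Finset.mem_erase, del]
  rw [show ∀ a b : ℕ, Nat.xor a b = a ^^^ b from fun _ _ => rfl,
    show ∀ a b : ℕ, Nat.lor a b = a ||| b from fun _ _ => rfl, Nat.testBit_xor, Nat.testBit_or,
    testBit_bit]
  by_cases e : i = j
  · simp [e]
  · simp [e, Ne.symm e]

lemma bits_inj {a b : ℕ} (h : bits a = bits b) : a = b := by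
  apply Nat.eq_of_testBit_eq
  intro i
  have : i ∈ bits a ↔ i ∈ bits b := by rw [h]
  simp only [mem_bits] at this
  exact Bool.eq_iff_iff.2 this

lemma bits_maskOf (l : List ℕ) : bits (maskOf l) = l.toFinset := by
  induction l with
  | nil => simp [maskOf, bits_zero]
  | cons i l ih =>
    have : maskOf (i :: l) = Nat.lor (bit i) (maskOf l) := rfl
    rw [this, bits_lor, bits_bit, ih]; simp

lemma subm_iff {s f : ℕ} : subm s f = true ↔ bits s ⊆ bits f := by
  simp only [subm, Nat.beq_eq]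
  constructor
  · intro h; rw [← h, bits_land]; exact Finset.inter_subset_right
  · intro h; apply bits_inj; rw [bits_land]; exact Finset.inter_eq_left.2 h

lemma subm_false {s f : ℕ} : subm s f = false ↔ ¬ bits s ⊆ bits f := by
  rw [← subm_iff]; simp

lemma land_eq_zero {a b : ℕ} : Nat.beq (Nat.land a b) 0 = true ↔ Disjoint (bits a) (bits b) := by
  rw [Nat.beq_eq, Finset.disjoint_iff_inter_eq_empty, ← bits_land, ← bits_zero]
  exact ⟨fun h => by rw [h], bits_inj⟩

/-- PL embedding of standard realizations -/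
def Emb (F G : Set (Finset ℕ)) : Prop :=
  ∃ g : V → V, GPL g ∧ Set.MapsTo g (real F) (real G) ∧ Set.InjOn g (real F)

lemma Emb.of_sub {F G : Set (Finset ℕ)} (h : ∀ s ∈ F, ∃ t ∈ G, s ⊆ t) : Emb F G :=
  ⟨fun x => x, GPL.id, real_mono h, fun _ _ _ _ e => e⟩

lemma Emb.trans {F G H : Set (Finset ℕ)} (h : Emb F G) (k : Emb G H) : Emb F H := by
  obtain ⟨f, f1, f2, f3⟩ := h
  obtain ⟨g, g1, g2, g3⟩ := k
  exact ⟨g ∘ f, g1.comp f1, g2.comp f2, g3.comp f3 f2⟩

lemma Emb.flip {F G : Set (Finset ℕ)} (hF : F.Finite) {σ τ : Finset ℕ} (hσ : σ.Nonempty)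
    (hτ : τ.Nonempty) (h1 : ∀ f ∈ F, ¬ τ ⊆ f) (h2 : ∀ f ∈ F, σ ⊆ f → f ⊆ σ ∪ τ)
    (h3 : ∀ f ∈ F, ¬ σ ⊆ f → f ∈ G) (h4 : ∀ u ∈ σ, τ ∪ σ.erase u ∈ G) : Emb F G := by
  obtain ⟨w, hw, hwF⟩ := exists_fresh hF (σ ∪ τ)
  have hwσ : w ∉ σ := fun a => hw (Finset.mem_union_left _ a)
  have hwτ : w ∉ τ := fun a => hw (Finset.mem_union_right _ a)
  have cσ := bary_ctr hσ
  have cτ := bary_ctr hτ
  have miss : ∀ y ∈ real (sd F σ w), ∃ i ∈ τ, y i = 0 := by
    rintro y ⟨-, -, t', ht', hs⟩
    rcases ht' with ⟨ht, -⟩ | ⟨t, ht, -, v, -, rfl⟩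
    · obtain ⟨i, hi, hit⟩ := Finset.not_subset.1 (h1 _ ht)
      exact ⟨i, hi, notMem_support_iff.1 (fun a => hit (hs a))⟩
    · obtain ⟨i, hi, hit⟩ := Finset.not_subset.1 (h1 _ ht)
      refine ⟨i, hi, notMem_support_iff.1 (fun a => ?_)⟩
      rcases Finset.mem_insert.1 (hs a) with e | e
      · exact hwτ (e ▸ hi)
      · exact hit (Finset.mem_erase.1 e).2
  refine ⟨Wmap (bary τ) w ∘ Umap σ (bary σ) w, (GPL.linear _).comp (GPL.Umap _ _ _), ?_, ?_⟩
  · intro x hx
    obtain ⟨h0, hm, t', ht', hs⟩ := U_mem cσ w hx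
    refine ⟨Wmap_nonneg cτ h0, by rw [Function.comp, Wmap_mass cτ, hm], ?_⟩
    rcases ht' with ⟨ht, hn⟩ | ⟨t, ht, hσt, v, hv, rfl⟩
    · refine ⟨t', h3 _ ht hn, ?_⟩
      rw [Function.comp, Wmap_of_zero]
      · exact hs
      · exact notMem_support_iff.1 (fun a => hwF _ ht (hs a))
    · refine ⟨_, h4 v hv, (Wmap_support cτ w _).trans ?_⟩
      intro i hi
      rcases Finset.mem_union.1 hi with hi | hi
      · have := hs (Finset.mem_erase.1 hi).2
        rcases Finset.mem_insert.1 this with e | e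
        · exact absurd e (Finset.mem_erase.1 hi).1
        · rcases Finset.mem_union.1 (h2 _ ht hσt (Finset.mem_erase.1 e).2) with e' | e'
          · exact Finset.mem_union_right _ (Finset.mem_erase.2 ⟨(Finset.mem_erase.1 e).1, e'⟩)
          · exact Finset.mem_union_left _ e'
      · exact Finset.mem_union_left _ hi
  · intro x hx y hy e
    have hx' := U_mem cσ w hx
    have hy' := U_mem cσ w hy
    apply (U_bij cσ hwσ hwF).injOn hx hy
    rw [← U_W cτ hwτ hx'.1 (miss _ hx'), ← U_W cτ hwτ hy'.1 (miss _ hy')]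
    exact congrArg _ e

noncomputable def flipF (s t st : ℕ) (A tail : List ℕ) : Option (List ℕ) :=
  List.rec (some tail) (fun f _ r => Bool.rec
    (Bool.rec (Option.rec none (fun l => some (f :: l)) r) (Bool.rec none r (subm f st)) (subm s f))
    none (subm t f)) A

lemma flipF_spec {s t st : ℕ} {tail : List ℕ} : ∀ {A B : List ℕ}, flipF s t st A tail = some B →
    (∀ f ∈ A, subm t f = false ∧ (subm s f = true → subm f st = true) ∧
      (subm s f = false → f ∈ B)) ∧ ∀ f ∈ tail, f ∈ B := by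
  intro A
  induction A with
  | nil => intro B h; simp only [flipF, Option.some.injEq] at h; simp [h]
  | cons f A ih =>
    intro B h
    have e : flipF s t st (f :: A) tail = Bool.rec
      (Bool.rec (Option.rec none (fun l => some (f :: l)) (flipF s t st A tail))
        (Bool.rec none (flipF s t st A tail) (subm f st)) (subm s f)) none (subm t f) := rfl
    rw [e] at h
    cases h1 : subm t f <;> rw [h1] at h
    swap
    · cases h
    cases h2 : subm s f <;> rw [h2] at h
    · cases h3 : flipF s t st A tail <;> rw [h3] at h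
      · cases h
      · obtain ⟨k1, k2⟩ := ih h3
        cases h
        refine ⟨fun g hg => ?_, fun g hg => List.mem_cons_of_mem _ (k2 g hg)⟩
        rcases List.mem_cons.1 hg with rfl | hg
        · simp [h1, h2]
        · exact ⟨(k1 g hg).1, (k1 g hg).2.1, fun a => List.mem_cons_of_mem _ ((k1 g hg).2.2 a)⟩
    · cases h3 : subm f st <;> rw [h3] at h
      · cases h
      · obtain ⟨k1, k2⟩ := ih h
        refine ⟨fun g hg => ?_, k2⟩
        rcases List.mem_cons.1 hg with rfl | hg
        · simp [h1, h2, h3]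
        · exact k1 g hg

noncomputable def newF (s t : ℕ) (us : List ℕ) : List ℕ :=
  List.rec [] (fun u _ r => Nat.lor t (del s u) :: r) us

lemma newF_eq (s t : ℕ) (us : List ℕ) : newF s t us = us.map (fun u => Nat.lor t (del s u)) := by
  induction us with
  | nil => rfl
  | cons u us ih => exact congrArg (List.cons _) ih

/-- a flip is given by two nonempty vertex lists -/
noncomputable def flip (m : ℕ × List ℕ × ℕ × List ℕ) (A : List ℕ) : Option (List ℕ) :=
  flipF (maskOf (m.1 :: m.2.1)) (maskOf (m.2.2.1 :: m.2.2.2))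
    (Nat.lor (maskOf (m.1 :: m.2.1)) (maskOf (m.2.2.1 :: m.2.2.2))) A
    (newF (maskOf (m.1 :: m.2.1)) (maskOf (m.2.2.1 :: m.2.2.2)) (m.1 :: m.2.1))

lemma flip_emb {m : ℕ × List ℕ × ℕ × List ℕ} {A B : List ℕ} (h : flip m A = some B) :
    Emb (sem A) (sem B) := by
  obtain ⟨k1, k2⟩ := flipF_spec h
  refine Emb.flip (sem_finite A) (σ := bits (maskOf (m.1 :: m.2.1)))
    (τ := bits (maskOf (m.2.2.1 :: m.2.2.2))) (by simp [bits_maskOf]) (by simp [bits_maskOf])
    ?_ ?_ ?_ ?_
  · rintro _ ⟨f, hf, rfl⟩; exact subm_false.1 (k1 f hf).1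
  · rintro _ ⟨f, hf, rfl⟩ a
    rw [← bits_lor]; exact subm_iff.1 ((k1 f hf).2.1 (subm_iff.2 a))
  · rintro _ ⟨f, hf, rfl⟩ a
    exact ⟨f, (k1 f hf).2.2 (subm_false.2 a), rfl⟩
  · intro u hu
    have hu' : u ∈ m.1 :: m.2.1 := by simpa [bits_maskOf] using hu
    refine ⟨_, k2 _ (by rw [newF_eq]; exact List.mem_map_of_mem hu'), ?_⟩
    rw [bits_lor, bits_del]

noncomputable def runFlips (ms : List (ℕ × List ℕ × ℕ × List ℕ)) : List ℕ → Option (List ℕ) :=
  List.rec (fun A => some A) (fun m _ r A => Option.rec none r (flip m A)) ms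

lemma runFlips_emb : ∀ {ms : List (ℕ × List ℕ × ℕ × List ℕ)} {A B : List ℕ},
    runFlips ms A = some B → Emb (sem A) (sem B) := by
  intro ms
  induction ms with
  | nil =>
    intro A B h
    cases h
    exact Emb.of_sub (fun s hs => ⟨s, hs, le_rfl⟩)
  | cons m ms ih =>
    intro A B h
    have e : runFlips (m :: ms) A = Option.rec none (runFlips ms) (flip m A) := rfl
    rw [e] at h
    cases h1 : flip m A <;> rw [h1] at h
    · cases h
    · exact (flip_emb h1).trans (ih h)

noncomputable def masks (L : List (List ℕ)) : List ℕ := List.rec [] (fun l _ r => maskOf l :: r) L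

lemma masks_eq (L : List (List ℕ)) : masks L = L.map maskOf := by
  induction L with
  | nil => rfl
  | cons u us ih => exact congrArg (List.cons _) ih

noncomputable def eqL (A : List ℕ) : List ℕ → Bool :=
  List.rec (fun B => List.rec true (fun _ _ _ => false) B)
    (fun a _ r B => List.rec false (fun b B' _ => Bool.rec false (r B') (Nat.beq a b)) B) A

lemma eqL_spec : ∀ {A B : List ℕ}, eqL A B = true → A = B := by
  intro A
  induction A with
  | nil => intro B h; cases B with
    | nil => rfl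
    | cons b B => cases h
  | cons a A ih => intro B h; cases B with
    | nil => cases h
    | cons b B =>
      have e : eqL (a :: A) (b :: B) = Bool.rec false (eqL A B) (Nat.beq a b) := rfl
      rw [e] at h
      cases h1 : Nat.beq a b <;> rw [h1] at h
      · cases h
      · rw [Nat.eq_of_beq_eq_true h1, ih h]

noncomputable def checkFlips (ms : List (ℕ × List ℕ × ℕ × List ℕ)) (L M : List (List ℕ)) : Bool :=
  Option.rec false (fun B => eqL B (masks M)) (runFlips ms (masks L))

/-- complex generated by vertex lists -/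
def cx (L : List (List ℕ)) : Set (Finset ℕ) := {s | ∃ l ∈ L, s = l.toFinset}

lemma sem_masks (L : List (List ℕ)) : sem (masks L) = cx L := by
  ext s
  simp only [sem, cx, masks_eq, List.mem_map, Set.mem_ofPred_eq]
  constructor
  · rintro ⟨_, ⟨l, hl, rfl⟩, rfl⟩; exact ⟨l, hl, bits_maskOf l⟩
  · rintro ⟨l, hl, rfl⟩; exact ⟨_, ⟨l, hl, rfl⟩, (bits_maskOf l).symm⟩

lemma cx_finite (L : List (List ℕ)) : (cx L).Finite := sem_masks L ▸ sem_finite _

lemma checkFlips_emb {ms : List (ℕ × List ℕ × ℕ × List ℕ)} {L M : List (List ℕ)}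
    (h : checkFlips ms L M = true) : Emb (cx L) (cx M) := by
  unfold checkFlips at h
  cases h1 : runFlips ms (masks L) <;> rw [h1] at h
  · cases h
  · rw [← sem_masks, ← sem_masks, ← eqL_spec h]
    exact runFlips_emb h1

end Pool.Agent.P.MP_e9dd47_gt
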