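import Pool.Agent.P.MP_e9dd47_gt.Sym

/-!
The punctured sphere as a geometric triangulation.
-/

namespace Pool.Agent.P.MP_e9dd47_gt

open Finsupp

def L0 : List (List ℕ) :=
  [[0,2,4,7],[0,2,5,6],[0,2,5,7],[0,3,4,6],[0,3,4,7],[0,3,5,6],[0,3,5,7],
   [1,2,4,6],[1,2,4,7],[1,2,5,6],[1,2,5,7],[1,3,4,6],[1,3,4,7],[1,3,5,6]]

noncomputable def φS (i : ℕ) : Fin 4 → ℝ :=
  fun j => (if i = 2 * j.val then 1 else 0) - (if i = 2 * j.val + 1 then 1 else 0)

lemma lin_φS (x : V) (j : Fin 4) : lin φS x j = x (2 * j.val) - x (2 * j.val + 1) := by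
  induction x using Finsupp.induction_linear with
  | zero => simp
  | add a b ha hb => simp only [map_add, Finsupp.add_apply, Pi.add_apply, ha, hb]; ring
  | single i r => simp [single_apply, φS, mul_sub]

lemma lin_φS_act (x : V) : lin φS (pm ant x) = - lin φS x := by
  ext j
  have e1 : ant (2 * j.val) = 2 * j.val + 1 := by unfold ant; split_ifs <;> omega
  have e2 : ant (2 * j.val + 1) = 2 * j.val := by unfold ant; split_ifs <;> omega
  rw [Pi.neg_apply, lin_φS, lin_φS, act_apply, act_apply, e1, e2]; ring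

lemma L0_props {x : V} (hx : x ∈ real (cx L0)) :
    (∀ i, 8 ≤ i → x i = 0) ∧ (∀ j : Fin 4, x (2 * j.val) = 0 ∨ x (2 * j.val + 1) = 0) ∧
    (∃ j : Fin 4, x (2 * j.val) = 0) ∧ (∃ j : Fin 4, x (2 * j.val + 1) = 0) := by
  obtain ⟨-, -, _, ⟨l, hl, rfl⟩, hs⟩ := hx
  have z : ∀ i, i ∉ l → x i = 0 := fun i hi =>
    notMem_support_iff.1 (fun a => hi (List.mem_toFinset.1 (hs a)))
  have k : ∀ l ∈ L0, (∀ i ∈ l, i < 8) ∧ (∀ j : Fin 4, 2 * j.val ∉ l ∨ 2 * j.val + 1 ∉ l) ∧
      (∃ j : Fin 4, 2 * j.val ∉ l) ∧ (∃ j : Fin 4, 2 * j.val + 1 ∉ l) := by decide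
  obtain ⟨k1, k2, ⟨a, k3⟩, b, k4⟩ := k l hl
  exact ⟨fun i hi => z i (fun c => by have := k1 i c; omega),
    fun j => (k2 j).imp (z _) (z _), ⟨a, z _ k3⟩, b, z _ k4⟩

lemma mass_eight {x : V} (h : ∀ i, 8 ≤ i → x i = 0) :
    mass x = ∑ j : Fin 4, (x (2 * j.val) + x (2 * j.val + 1)) := by
  rw [mass_eq_sum x (Finset.range 8) (fun i hi => by
    by_contra c
    exact mem_support_iff.1 hi (h i (by simpa using c)))]
  simp [Finset.sum_range_succ, Fin.sum_univ_four]
  ring

noncomputable def TS : GT (Fin 4 → ℝ) where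
  F := cx L0
  fin := cx_finite _
  φ := φS
  inj := by
    intro x hx y hy e
    obtain ⟨a1, a2, -⟩ := L0_props hx
    obtain ⟨b1, b2, -⟩ := L0_props hy
    have key : ∀ j : Fin 4, x (2 * j.val) = y (2 * j.val) ∧ x (2 * j.val + 1) = y (2 * j.val + 1) := by
      intro j
      have := congrFun e j
      rw [lin_φS, lin_φS] at this
      have := hx.1 (2 * j.val); have := hx.1 (2 * j.val + 1)
      have := hy.1 (2 * j.val); have := hy.1 (2 * j.val + 1)
      rcases a2 j with a | a <;> rcases b2 j with b | b <;> constructor <;> linarith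
    ext i
    by_cases c : 8 ≤ i
    · rw [a1 i c, b1 i c]
    · have := key ⟨i / 2, by omega⟩
      rcases Nat.mod_two_eq_zero_or_one i with d | d
      · have d' : 2 * (i / 2) = i := by omega
        simpa [d'] using this.1
      · have d' : 2 * (i / 2) + 1 = i := by omega
        simpa [d'] using this.2

lemma exists_signs {z : Fin 4 → ℝ} (h1 : ¬ ∀ i, 0 < z i) (h2 : ¬ ∀ i, z i < 0) :
    ∃ ε : Fin 4 → Bool, (∃ j, ε j = true) ∧ (∃ j, ε j = false) ∧
      ∀ i, (ε i = true → 0 ≤ z i) ∧ (ε i = false → z i ≤ 0) := by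
  push Not at h1 h2
  obtain ⟨j, hj⟩ := h1
  obtain ⟨k, hk⟩ := h2
  have : ∃ j k : Fin 4, j ≠ k ∧ z j ≤ 0 ∧ 0 ≤ z k := by
    by_cases e : j = k
    · subst e
      obtain ⟨i, hi⟩ := exists_ne j
      rcases le_total (z i) 0 with a | a
      · exact ⟨i, j, hi, a, hk⟩
      · exact ⟨j, i, hi.symm, hj, a⟩
    · exact ⟨j, k, e, hj, hk⟩
  obtain ⟨j, k, hne, hj, hk⟩ := this
  refine ⟨fun i => if i = j then false else decide (0 ≤ z i), ⟨k, by simp [hne.symm, hk]⟩,
    ⟨j, by simp⟩, fun i => ?_⟩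
  by_cases e : i = j
  · simp [e, hj]
  · simp only [e, if_false, decide_eq_true_eq, imp_self, decide_eq_false_iff_not, not_le, true_and]
    exact le_of_lt

lemma TS_space : TS.space = puncturedSphere := by
  ext z
  constructor
  · rintro ⟨x, hx, rfl⟩
    obtain ⟨a1, a2, ⟨j, a3⟩, k, a4⟩ := L0_props hx
    refine ⟨?_, fun h => ?_, fun h => ?_⟩
    · rw [← hx.2.1, mass_eight a1]
      refine Finset.sum_congr rfl (fun j _ => ?_)
      simp only [TS, lin_φS]
      have := hx.1 (2 * j.val); have := hx.1 (2 * j.val + 1)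
      rcases a2 j with a | a
      · rw [a, abs_of_nonpos (by linarith)]; ring
      · rw [a, abs_of_nonneg (by linarith)]; ring
    · have := h j
      simp only [TS, lin_φS, a3] at this
      have := hx.1 (2 * j.val + 1); linarith
    · have := h k
      simp only [TS, lin_φS, a4] at this
      have := hx.1 (2 * k.val); linarith
  · rintro ⟨h0, h1, h2⟩
    obtain ⟨ε, e1, e2, e3⟩ := exists_signs h1 h2
    have k : ∀ ε : Fin 4 → Bool, (∃ j, ε j = true) → (∃ j, ε j = false) →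
        ∃ l ∈ L0, ∀ j : Fin 4, (if ε j then 2 * j.val else 2 * j.val + 1) ∈ l := by decide
    obtain ⟨l, hl, k⟩ := k ε e1 e2
    refine ⟨∑ j : Fin 4, single (if ε j then 2 * j.val else 2 * j.val + 1) |z j|,
      ⟨fun i => ?_, by simp [h0], _, ⟨l, hl, rfl⟩, ?_⟩, ?_⟩
    · rw [Finsupp.finsetSum_apply]
      refine Finset.sum_nonneg (fun j _ => ?_)
      rw [single_apply]; split_ifs <;> simp
    · refine support_finsetSum.trans (fun i hi => ?_)
      obtain ⟨j, -, hj⟩ := Finset.mem_biUnion.1 hi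
      rw [Finset.mem_singleton.1 (support_single_subset hj)]
      exact List.mem_toFinset.2 (k j)
    · ext i
      simp only [TS, map_sum, lin_single, Finset.sum_apply, Pi.smul_apply, smul_eq_mul, φS]
      rw [Finset.sum_eq_single i]
      · cases c : ε i
        · simp [abs_of_nonpos ((e3 i).2 c)]
        · simp [abs_of_nonneg ((e3 i).1 c)]
      · intro j _ hj
        have : j.val ≠ i.val := fun a => hj (Fin.ext a)
        rw [if_neg (by split_ifs <;> omega), if_neg (by split_ifs <;> omega)]; simp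
      · simp

lemma act_mem_L0 {x : V} (hx : x ∈ real (cx L0)) : pm ant x ∈ real (cx L0) := by
  refine pm_mem ant ?_ hx
  rintro _ ⟨l, hl, rfl⟩
  have k : ∀ l ∈ L0, ∃ l' ∈ L0, ∀ i ∈ l, ant i ∈ l' := by decide
  obtain ⟨l', hl', k⟩ := k l hl
  refine ⟨_, ⟨l', hl', rfl⟩, fun i hi => ?_⟩
  obtain ⟨j, hj, rfl⟩ := Finset.mem_image.1 hi
  exact List.mem_toFinset.2 (k j (List.mem_toFinset.1 hj))

lemma embeds_of {E : Type} [AddCommGroup E] [Module ℝ E] {Y : Set E} {L : List (List ℕ)}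
    {G : Set (Finset ℕ)} (h1 : SEmb (cx L0) (cx L)) (h2 : checkFib L = true)
    (h3 : Emb (cx (L.map (List.map half))) G) (φ : ℕ → E) (h4 : Set.InjOn (lin φ) (real G))
    (h5 : Set.MapsTo (lin φ) (real G) Y) : PuncturedRP3Embeds Y := by
  obtain ⟨g, g1, g2, g3, g4⟩ := h1
  obtain ⟨k, k1, k2, k3⟩ := h3
  have p : Set.MapsTo (pm half) (real (cx L)) (real (cx (L.map (List.map half)))) :=
    fun x hx => pm_mem half (cx_map half L) hx
  obtain ⟨f, f1, f2⟩ := TS.exists_PL
    ((GPL.linear (lin φ)).comp (k1.comp ((GPL.linear (pm half)).comp g1)))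
  rw [TS_space] at f1
  refine ⟨f, f1, ?_, ?_⟩
  · rw [← TS_space]
    rintro _ ⟨x, hx, rfl⟩
    rw [f2 x hx]
    exact h5 (k2 (p (g2 hx)))
  · rw [← TS_space]
    rintro _ ⟨x, hx, rfl⟩ _ ⟨y, hy, rfl⟩
    constructor
    · intro e
      rw [f2 x hx, f2 y hy] at e
      have e1 := k3 (p (g2 hx)) (p (g2 hy)) (h4 (k2 (p (g2 hx))) (k2 (p (g2 hy))) e)
      rcases checkFib_spec h2 (g2 hx) (g2 hy) e1 with a | a
      · left; rw [g3 hy hx a]
      · right
        rw [← g4] at a
        rw [g3 hy (act_mem_L0 hx) a]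
        exact lin_φS_act x
    · rintro (e | e)
      · rw [e]
      · have : lin TS.φ y = lin TS.φ (pm ant x) := e.trans (lin_φS_act x).symm
        obtain rfl := TS.inj hy (act_mem_L0 hx) this
        rw [f2 x hx, f2 _ hy]
        simp only [Function.comp, g4, push_act]

end Pool.Agent.P.MP_e9dd47_gt
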