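import Pool.Agent.P.MP_e9dd47_gt.Sym

/-!
Staircase triangulations of the product with an interval.
-/

namespace Pool.Agent.P.MP_e9dd47_gt

open Finsupp

noncomputable def φP (i : ℕ) : Fin 20 → ℝ := fun a => if i = a.val then 1 else 0

lemma lin_φP (x : V) (a : Fin 20) : lin φP x a = x a.val := by
  induction x using Finsupp.induction_linear with
  | zero => simp
  | add a b ha hb => simp only [map_add, Finsupp.add_apply, Pi.add_apply, ha, hb]
  | single i r => simp [single_apply, φP]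

def md (i : ℕ) : ℕ := i % 20

noncomputable def Φ (h : ℝ) (i : ℕ) : (Fin 20 → ℝ) × ℝ := (φP (md i), ((i / 20 : ℕ) : ℝ) / h)

lemma lin_Φ (h : ℝ) (x : V) :
    lin (Φ h) x = (lin φP (pm md x), lin (fun i => ((i / 20 : ℕ) : ℝ) / h) x) := by
  induction x using Finsupp.induction_linear with
  | zero => simp only [map_zero]; rfl
  | add a b ha hb => simp only [map_add, ha, hb, Prod.mk_add_mk]
  | single i r => simp [Φ]

lemma Φ_inj {h : ℝ} (hh : h ≠ 0) : Function.Injective (Φ h) := by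
  intro i j e
  have e1 := congrFun (congrArg Prod.fst e) ⟨md i, Nat.mod_lt _ (by norm_num)⟩
  have e2 := congrArg Prod.snd e
  simp only [Φ, φP, if_true] at e1 e2
  have e3 : md j = md i := by
    by_contra c
    rw [if_neg c] at e1
    exact one_ne_zero e1
  have e4 : i / 20 = j / 20 := by
    have := (div_left_inj' hh).1 e2
    exact_mod_cast this
  unfold md at e3
  omega

lemma lin_of_Φ {h : ℝ} (hh : h ≠ 0) {x y : V} (e : lin (Φ h) x = lin (Φ h) y) (α : ℝ) (m : ℕ → ℝ) :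
    lin (fun i => α * ((i / 20 : ℕ) : ℝ) + m (md i)) x =
      lin (fun i => α * ((i / 20 : ℕ) : ℝ) + m (md i)) y := by
  have key : ∀ z : V, lin (fun i => α * ((i / 20 : ℕ) : ℝ) + m (md i)) z =
      α * h * (lin (Φ h) z).2 + ∑ a : Fin 20, m a.val * (lin (Φ h) z).1 a := by
    intro z
    induction z using Finsupp.induction_linear with
    | zero => simp
    | add a b ha hb =>
      simp only [map_add, ha, hb, Prod.snd_add, Prod.fst_add, Pi.add_apply, mul_add,
        Finset.sum_add_distrib]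
      ring
    | single i r =>
      simp only [lin_single, smul_eq_mul, Φ, Prod.smul_mk, Pi.smul_apply, φP]
      rw [Finset.sum_eq_single ⟨md i, Nat.mod_lt _ (by norm_num)⟩]
      · simp only [if_true]; field_simp
      · intro b _ hb
        rw [if_neg (fun c => hb (Fin.ext c.symm))]; simp
      · simp
  rw [key, key, e]

lemma lin_zero_terms {c : ℕ → ℝ} {x : V} (hx : ∀ i, 0 ≤ x i) (hc : ∀ i ∈ x.support, 0 ≤ c i)
    (h : lin c x = 0) (i : ℕ) (hi : c i ≠ 0) : x i = 0 := by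
  rw [lin_eq_sum c x _ le_rfl] at h
  simp only [smul_eq_mul] at h
  rw [Finset.sum_eq_zero_iff_of_nonneg (fun i hi => mul_nonneg (hx i) (hc i hi))] at h
  by_contra k
  have := h i (mem_support_iff.2 k)
  rw [mul_eq_zero] at this
  tauto

lemma lin_congr {c c' : ℕ → ℝ} {x : V} (h : ∀ i ∈ x.support, c i = c' i) : lin c x = lin c' x := by
  rw [lin_eq_sum c x _ le_rfl, lin_eq_sum c' x _ le_rfl]
  exact Finset.sum_congr rfl (fun i hi => by rw [h i hi])

lemma lin_neg' (c : ℕ → ℝ) (x : V) : lin (fun i => - c i) x = - lin c x := by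
  rw [lin_eq_sum c x _ le_rfl, lin_eq_sum _ x _ le_rfl, ← Finset.sum_neg_distrib]
  simp

lemma stair_aux {h : ℝ} (hh : h ≠ 0) {x y : V} (hx : ∀ i, 0 ≤ x i) (hy : ∀ i, 0 ≤ y i)
    {θ θ' : ℕ} (hθ : θ ≤ θ') (sx : ∀ i ∈ x.support, θ ≤ i ∧ i ≤ θ + 20)
    (sy : ∀ i ∈ y.support, θ' ≤ i ∧ i ≤ θ' + 20) (e : lin (Φ h) x = lin (Φ h) y) : x = y := by
  let c : ℕ → ℝ := fun i => (((i : ℤ) - θ') / 20 : ℤ)
  have e1 : lin c x = lin c y := by
    have := lin_of_Φ hh e 1 (fun a => (((a : ℤ) - θ') / 20 : ℤ))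
    have hc : (fun i : ℕ => (1 : ℝ) * ((i / 20 : ℕ) : ℝ) + ((((md i : ℕ) : ℤ) - θ') / 20 : ℤ)) = c := by
      ext i
      have : ((i / 20 : ℕ) : ℤ) + (((md i : ℕ) : ℤ) - θ') / 20 = ((i : ℤ) - θ') / 20 := by
        unfold md; omega
      simp only [c, ← this]
      rw [Int.cast_add, Int.cast_natCast, one_mul]
    rwa [hc] at this
  have step : ∀ i : ℕ, ((i : ℤ) - θ') / 20 ≠ 0 → x i = y i := by
    rcases hθ.eq_or_lt with a | a
    · subst a
      have k : ∀ z : V, (∀ i ∈ z.support, θ ≤ i ∧ i ≤ θ + 20) → lin c z = z (θ + 20) := by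
        intro z hz
        rw [apply_eq_lin]
        refine lin_congr (fun i hi => ?_)
        have := hz i hi
        split_ifs with b
        · have : ((i : ℤ) - θ) / 20 = 1 := by omega
          simp [c, this]
        · have : ((i : ℤ) - θ) / 20 = 0 := by omega
          simp [c, this]
      rw [k x sx, k y sy] at e1
      intro i hi
      by_cases b : i = θ + 20
      · rw [b, e1]
      · rw [notMem_support_iff.1 (fun d => by have := sx i d; omega),
          notMem_support_iff.1 (fun d => by have := sy i d; omega)]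
    · have cx : ∀ i ∈ x.support, 0 ≤ - c i := fun i hi => by
        have := sx i hi
        have : ((i : ℤ) - θ') / 20 ≤ 0 := by omega
        simp only [c, Left.nonneg_neg_iff]; exact_mod_cast this
      have cy : ∀ i ∈ y.support, 0 ≤ c i := fun i hi => by
        have := sy i hi
        have : 0 ≤ ((i : ℤ) - θ') / 20 := by omega
        simp only [c]; exact_mod_cast this
      have p1 := lin_nonneg hx cx
      have p2 := lin_nonneg hy cy
      rw [lin_neg'] at p1
      intro i hi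
      have hi' : c i ≠ 0 := by simp only [c]; exact_mod_cast hi
      rw [lin_zero_terms hx cx (by rw [lin_neg']; linarith) i (neg_ne_zero.2 hi'),
        lin_zero_terms hy cy (by linarith) i hi']
  ext i
  by_cases b : ((i : ℤ) - θ') / 20 = 0
  swap
  · exact step i b
  have := lin_of_Φ hh e 0 (fun a => if a = md i then 1 else 0)
  rw [← sub_eq_zero, ← map_sub, lin_congr (c' := fun j => if j = i then 1 else 0), ← apply_eq_lin]
    at this
  · simpa [sub_eq_zero] using this
  · intro j hj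
    have hj' : ((j : ℤ) - θ') / 20 = 0 := by
      by_contra d
      exact mem_support_iff.1 hj (by simp [step j d])
    have : md j = md i ↔ j = i := by unfold md; omega
    simp [this]

lemma stair_inj {h : ℝ} (hh : h ≠ 0) {F : Set (Finset ℕ)}
    (hF : ∀ s ∈ F, ∃ θ, ∀ i ∈ s, θ ≤ i ∧ i ≤ θ + 20) : Set.InjOn (lin (Φ h)) (real F) := by
  rintro x ⟨hx, -, s, hs, sx⟩ y ⟨hy, -, t, ht, sy⟩ e
  obtain ⟨θ, h1⟩ := hF s hs
  obtain ⟨θ', h2⟩ := hF t ht
  rcases le_total θ θ' with a | a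
  · exact stair_aux hh hx hy a (fun i hi => h1 i (sx hi)) (fun i hi => h2 i (sy hi)) e
  · exact (stair_aux hh hy hx a (fun i hi => h2 i (sy hi)) (fun i hi => h1 i (sx hi)) e.symm).symm

lemma stair_maps {n : ℕ} (hn : 0 < n) {F K : Set (Finset ℕ)}
    (h1 : ∀ s ∈ F, ∃ t ∈ K, s.image md ⊆ t) (h2 : ∀ s ∈ F, ∀ i ∈ s, i / 20 ≤ n) :
    Set.MapsTo (lin (Φ n)) (real F) ((lin φP '' real K) ×ˢ Set.Icc (0 : ℝ) 1) := by
  intro x hx
  have hn' : (0 : ℝ) < n := by exact_mod_cast hn
  rw [lin_Φ]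
  refine ⟨⟨_, pm_mem md h1 hx, rfl⟩, lin_nonneg hx.1 (fun i _ => by positivity), ?_⟩
  obtain ⟨h0, hm, s, hs, sx⟩ := hx
  simp only
  rw [← hm, mass_eq_sum x _ le_rfl, lin_eq_sum _ x _ le_rfl]
  refine Finset.sum_le_sum (fun i hi => ?_)
  have : ((i / 20 : ℕ) : ℝ) / n ≤ 1 := by
    rw [div_le_one hn']; exact_mod_cast h2 s hs i (sx hi)
  rw [smul_eq_mul]
  exact mul_le_of_le_one_right (h0 i) this

lemma stair_list {n : ℕ} (hn : 0 < n) {L K : List (List ℕ)}
    (h : ∀ l ∈ L, (∀ i ∈ l, l.headI ≤ i ∧ i ≤ l.headI + 20 ∧ i / 20 ≤ n) ∧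
      ∃ t ∈ K, ∀ i ∈ l, md i ∈ t) :
    Set.InjOn (lin (Φ n)) (real (cx L)) ∧
      Set.MapsTo (lin (Φ n)) (real (cx L)) ((lin φP '' real (cx K)) ×ˢ Set.Icc (0 : ℝ) 1) := by
  refine ⟨stair_inj (by exact_mod_cast hn.ne') ?_, stair_maps hn ?_ ?_⟩
  · rintro _ ⟨l, hl, rfl⟩
    refine ⟨l.headI, fun i hi => ?_⟩
    have := (h l hl).1 i (List.mem_toFinset.1 hi)
    exact ⟨this.1, this.2.1⟩
  · rintro _ ⟨l, hl, rfl⟩
    obtain ⟨t, ht, k⟩ := (h l hl).2
    refine ⟨_, ⟨t, ht, rfl⟩, fun i hi => ?_⟩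
    obtain ⟨j, hj, rfl⟩ := Finset.mem_image.1 hi
    exact List.mem_toFinset.2 (k j (List.mem_toFinset.1 hj))
  · rintro _ ⟨l, hl, rfl⟩ i hi
    exact ((h l hl).1 i (List.mem_toFinset.1 hi)).2.2

lemma four_mem {F : Set (Finset ℕ)} {s : Finset ℕ} (hs : s ∈ F) {a b c d : ℕ} (ha : a ∈ s)
    (hb : b ∈ s) (hc : c ∈ s) (hd : d ∈ s) {p q r t : ℝ} (hp : 0 ≤ p) (hq : 0 ≤ q) (hr : 0 ≤ r)
    (ht : 0 ≤ t) (h : p + q + r + t = 1) :
    single a p + single b q + single c r + single d t ∈ real F := by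
  refine ⟨fun i => ?_, by simp [h], s, hs, ?_⟩
  · simp only [Finsupp.add_apply, single_apply]
    split_ifs <;> linarith
  · have k : ∀ (e : ℕ) (u : ℝ), e ∈ s → (single e u).support ⊆ s := fun e u he =>
      support_single_subset.trans (by simpa using he)
    exact support_add.trans (Finset.union_subset (support_add.trans (Finset.union_subset
      (support_add.trans (Finset.union_subset (k _ _ ha) (k _ _ hb))) (k _ _ hc))) (k _ _ hd))

def stairs (l : List ℕ) : List (List ℕ) :=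
  match l with
  | [a, b, c] => [[a, b, c, a + 20], [b, c, a + 20, b + 20], [c, a + 20, b + 20, c + 20]]
  | _ => []

lemma stair_surj {K : List (List ℕ)}
    (hK : ∀ l ∈ K, ∃ a b c, l = [a, b, c] ∧ a < b ∧ b < c ∧ c < 20) :
    Set.SurjOn (lin (Φ (1 : ℕ))) (real (cx (K.flatMap stairs)))
      ((lin φP '' real (cx K)) ×ˢ Set.Icc (0 : ℝ) 1) := by
  rintro ⟨_, τ⟩ ⟨⟨u, ⟨h0, hm, _, ⟨l, hl, rfl⟩, hs⟩, rfl⟩, t0, t1⟩
  obtain ⟨a, b, c, rfl, ab, bc, c20⟩ := hK l hl
  simp only at t0 t1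
  have e : ∀ {W : Type} [AddCommGroup W] [Module ℝ W] (ψ : ℕ → W),
      lin ψ u = u a • ψ a + u b • ψ b + u c • ψ c := by
    intro W _ _ ψ
    rw [lin_eq_sum ψ u _ hs]
    simp only [List.toFinset_cons, List.toFinset_nil, insert_empty_eq]
    rw [Finset.sum_insert (by simp; omega), Finset.sum_insert (by simp; omega), Finset.sum_singleton,
      add_assoc]
  have hm' : u a + u b + u c = 1 := by
    have := e (fun _ => (1 : ℝ))
    simp only [smul_eq_mul, mul_one] at this
    rw [← this]; exact hm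
  have v0 : ∀ i, i < 20 → Φ (1 : ℕ) i = (φP i, 0) := fun i hi => by
    simp [Φ, md, Nat.mod_eq_of_lt hi, Nat.div_eq_of_lt hi]
  have v1 : ∀ i, i < 20 → Φ (1 : ℕ) (i + 20) = (φP i, 1) := fun i hi => by
    simp [Φ, md, Nat.mod_eq_of_lt hi, Nat.div_eq_of_lt hi]
  have mem : ∀ s ∈ stairs [a, b, c], s.toFinset ∈ cx (K.flatMap stairs) := fun s hs =>
    ⟨s, List.mem_flatMap.2 ⟨_, hl, hs⟩, rfl⟩
  have ha := h0 a
  have hb := h0 b
  have hc := h0 c
  by_cases c1 : τ ≤ u a
  · refine ⟨_, four_mem (mem [a, b, c, a + 20] (by simp [stairs])) (a := a) (b := b) (c := c)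
      (d := a + 20) (by simp) (by simp) (by simp) (by simp) (p := u a - τ) (q := u b) (r := u c)
      (t := τ) (by linarith) hb hc t0 (by linarith), ?_⟩
    simp only [map_add, lin_single, e φP, v0 a (by omega), v0 b (by omega), v0 c c20,
      v1 a (by omega), Prod.smul_mk, Prod.mk_add_mk, smul_eq_mul, Prod.mk.injEq]
    exact ⟨by module, by ring⟩
  by_cases c2 : τ ≤ u a + u b
  · refine ⟨_, four_mem (mem [b, c, a + 20, b + 20] (by simp [stairs])) (a := b) (b := c)
      (c := a + 20) (d := b + 20) (by simp) (by simp) (by simp) (by simp) (p := u a + u b - τ)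
      (q := u c) (r := u a) (t := τ - u a) (by linarith) hc ha (by linarith) (by linarith), ?_⟩
    simp only [map_add, lin_single, e φP, v0 b (by omega), v0 c c20, v1 a (by omega),
      v1 b (by omega), Prod.smul_mk, Prod.mk_add_mk, smul_eq_mul, Prod.mk.injEq]
    exact ⟨by module, by ring⟩
  · refine ⟨_, four_mem (mem [c, a + 20, b + 20, c + 20] (by simp [stairs])) (a := c) (b := a + 20)
      (c := b + 20) (d := c + 20) (by simp) (by simp) (by simp) (by simp) (p := 1 - τ)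
      (q := u a) (r := u b) (t := τ - u a - u b) (by linarith) ha hb (by linarith) (by linarith), ?_⟩
    simp only [map_add, lin_single, e φP, v0 c c20, v1 a (by omega), v1 b (by omega),
      v1 c c20, Prod.smul_mk, Prod.mk_add_mk, smul_eq_mul, Prod.mk.injEq]
    refine ⟨?_, by ring⟩
    rw [show u c = (1 - τ) + (τ - u a - u b) by linarith]
    module

end Pool.Agent.P.MP_e9dd47_gt
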