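import Pool.Agent.P.MP_e9dd47_gt.Moves

/-!
Checkable stellar subdivisions and collapses.
-/

namespace Pool.Agent.P.MP_e9dd47_gt

open Finsupp

/-! ### subdivisions -/

noncomputable def subF (s w : ℕ) (us : List ℕ) (A : List ℕ) : List ℕ :=
  List.rec [] (fun f _ r => Bool.rec (f :: r)
    (List.rec r (fun u _ q => Nat.lor (bit w) (del f u) :: q) us) (subm s f)) A

lemma subF_aux (w f : ℕ) (r : List ℕ) (us : List ℕ) :
    (List.rec r (fun u _ q => Nat.lor (bit w) (del f u) :: q) us : List ℕ) =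
      us.map (fun u => Nat.lor (bit w) (del f u)) ++ r := by
  induction us with
  | nil => rfl
  | cons u us ih => exact congrArg (List.cons _) ih

lemma mem_subF {s w : ℕ} {us : List ℕ} {g : ℕ} : ∀ {A : List ℕ}, g ∈ subF s w us A ↔
    (g ∈ A ∧ subm s g = false) ∨
      ∃ f ∈ A, subm s f = true ∧ ∃ u ∈ us, g = Nat.lor (bit w) (del f u) := by
  intro A
  induction A with
  | nil => simp [subF]
  | cons f A ih =>
    have e : subF s w us (f :: A) = Bool.rec (f :: subF s w us A)
      (List.rec (subF s w us A) (fun u _ q => Nat.lor (bit w) (del f u) :: q) us) (subm s f) := rfl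
    rw [e]
    cases h : subm s f
    · simp only [List.mem_cons, ih, exists_eq_or_imp, h]
      constructor
      · rintro (rfl | ⟨a, b⟩ | a)
        · exact Or.inl ⟨Or.inl rfl, h⟩
        · exact Or.inl ⟨Or.inr a, b⟩
        · exact Or.inr (Or.inr a)
      · rintro (⟨rfl | a, b⟩ | ⟨a, -⟩ | a)
        · exact Or.inl rfl
        · exact Or.inr (Or.inl ⟨a, b⟩)
        · cases a
        · exact Or.inr (Or.inr a)
    · simp only [subF_aux, List.mem_append, List.mem_map, List.mem_cons, ih, exists_eq_or_imp, h]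
      constructor
      · rintro (⟨u, hu, rfl⟩ | ⟨a, b⟩ | a)
        · exact Or.inr (Or.inl ⟨trivial, u, hu, rfl⟩)
        · exact Or.inl ⟨Or.inr a, b⟩
        · exact Or.inr (Or.inr a)
      · rintro (⟨rfl | a, b⟩ | ⟨-, u, hu, rfl⟩ | a)
        · rw [h] at b; cases b
        · exact Or.inr (Or.inl ⟨a, b⟩)
        · exact Or.inl ⟨u, hu, rfl⟩
        · exact Or.inr (Or.inr a)

lemma sem_subF (w : ℕ) (us : List ℕ) (A : List ℕ) :
    sem (subF (maskOf us) w us A) = sd (sem A) us.toFinset w := by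
  ext t
  simp only [sem, sd, mem_subF, Set.mem_ofPred_eq, Set.mem_union]
  constructor
  · rintro ⟨g, (⟨a, b⟩ | ⟨f, hf, a, u, hu, rfl⟩), rfl⟩
    · exact Or.inl ⟨⟨g, a, rfl⟩, by rw [← bits_maskOf]; exact subm_false.1 b⟩
    · refine Or.inr ⟨_, ⟨f, hf, rfl⟩, by rw [← bits_maskOf]; exact subm_iff.1 a, u,
        List.mem_toFinset.2 hu, ?_⟩
      rw [bits_lor, bits_bit, bits_del]; rfl
  · rintro (⟨⟨g, a, rfl⟩, b⟩ | ⟨_, ⟨f, hf, rfl⟩, a, u, hu, rfl⟩)
    · exact ⟨g, Or.inl ⟨a, subm_false.2 (by rwa [bits_maskOf])⟩, rfl⟩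
    · refine ⟨_, Or.inr ⟨f, hf, subm_iff.2 (by rwa [bits_maskOf]), u, List.mem_toFinset.1 hu, rfl⟩, ?_⟩
      rw [bits_lor, bits_bit, bits_del]; rfl

noncomputable def allL (p : ℕ → Bool) (A : List ℕ) : Bool :=
  List.rec true (fun f _ r => Bool.rec false r (p f)) A

lemma allL_spec {p : ℕ → Bool} : ∀ {A : List ℕ}, allL p A = true → ∀ f ∈ A, p f = true := by
  intro A
  induction A with
  | nil => simp
  | cons a A ih =>
    intro h f hf
    have e : allL p (a :: A) = Bool.rec false (allL p A) (p a) := rfl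
    rw [e] at h
    cases h1 : p a <;> rw [h1] at h
    · cases h
    · rcases List.mem_cons.1 hf with rfl | hf
      · exact h1
      · exact ih h f hf

noncomputable def anyL (p : ℕ → Bool) (A : List ℕ) : Bool :=
  List.rec false (fun f _ r => Bool.rec r true (p f)) A

lemma anyL_spec {p : ℕ → Bool} : ∀ {A : List ℕ}, anyL p A = true → ∃ f ∈ A, p f = true := by
  intro A
  induction A with
  | nil => intro h; cases h
  | cons a A ih =>
    intro h
    have e : anyL p (a :: A) = Bool.rec (anyL p A) true (p a) := rfl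
    rw [e] at h
    cases h1 : p a <;> rw [h1] at h
    · obtain ⟨f, hf, k⟩ := ih h
      exact ⟨f, List.mem_cons_of_mem _ hf, k⟩
    · exact ⟨a, List.mem_cons_self, h1⟩

/-- the vertex `w` lies in no facet -/
noncomputable def freshL (w : ℕ) (A : List ℕ) : Bool :=
  allL (fun f => Nat.beq (Nat.land (bit w) f) 0) A

lemma freshL_spec {w : ℕ} {A : List ℕ} (h : freshL w A = true) : ∀ t ∈ sem A, w ∉ t := by
  rintro _ ⟨f, hf, rfl⟩
  have := land_eq_zero.1 (allL_spec h f hf)
  rw [bits_bit] at this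
  exact Finset.disjoint_singleton_left.1 this

/-- PL homeomorphism of realizations that fixes the vertex `20` -/
def Hom (F G : Set (Finset ℕ)) : Prop :=
  ∃ g : V → V, GPL g ∧ Set.BijOn g (real F) (real G) ∧ g (single 20 1) = single 20 1

lemma Hom.refl (F : Set (Finset ℕ)) : Hom F F := ⟨fun x => x, GPL.id, Set.bijOn_id _, rfl⟩

lemma Hom.trans {F G H : Set (Finset ℕ)} (h : Hom F G) (k : Hom G H) : Hom F H := by
  obtain ⟨f, f1, f2, f3⟩ := h
  obtain ⟨g, g1, g2, g3⟩ := k
  exact ⟨g ∘ f, g1.comp f1, g2.comp f2, by simp [f3, g3]⟩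

lemma Hom.sd {F : Set (Finset ℕ)} {σ : Finset ℕ} {w : ℕ} (hσ : σ.Nonempty) (hw : w ∉ σ)
    (hF : ∀ t ∈ F, w ∉ t) (h1 : 20 ∉ σ) (h2 : w ≠ 20) :
    Hom F (sd F σ w) ∧ Hom (sd F σ w) F := by
  have c := bary_ctr hσ
  refine ⟨⟨_, GPL.Umap _ _ _, U_bij c hw hF, ?_⟩, ⟨_, GPL.linear _, W_bij c hw hF, ?_⟩⟩
  · apply Umap_of_zero c
    · intro i; rw [single_apply]; split_ifs <;> norm_num
    · obtain ⟨i, hi⟩ := hσ
      exact ⟨i, hi, by rw [single_apply, if_neg (fun e : 20 = i => h1 (e ▸ hi))]⟩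
  · apply Wmap_of_zero
    rw [single_apply, if_neg (Ne.symm h2)]

/-- subdivide the edge `a b` by the new vertex `w` -/
noncomputable def subE (m : ℕ × ℕ × ℕ) (A : List ℕ) : Option (List ℕ) :=
  Bool.rec none (some (subF (maskOf [m.1, m.2.1]) m.2.2 [m.1, m.2.1] A))
    (freshL m.2.2 (maskOf [m.1, m.2.1, 20] :: A) && freshL 20 [maskOf [m.1, m.2.1]])

lemma subE_hom {m : ℕ × ℕ × ℕ} {A B : List ℕ} (h : subE m A = some B) :
    Hom (sem A) (sem B) ∧ Hom (sem B) (sem A) := by
  unfold subE at h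
  cases h1 : (freshL m.2.2 (maskOf [m.1, m.2.1, 20] :: A) && freshL 20 [maskOf [m.1, m.2.1]]) <;>
    rw [h1] at h
  · cases h
  · cases h
    rw [Bool.and_eq_true] at h1
    have k1 := freshL_spec h1.1
    have k2 := freshL_spec h1.2 _ ⟨_, List.mem_cons_self, rfl⟩
    have k3 := k1 _ ⟨_, List.mem_cons_self, rfl⟩
    rw [bits_maskOf] at k2 k3
    rw [sem_subF]
    refine Hom.sd (by simp) (fun a => k3 ?_) ?_ k2 (fun a => k3 (by simp [a]))
    · simp only [List.toFinset_cons, Finset.mem_insert] at a ⊢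
      tauto
    · rintro _ ⟨f, hf, rfl⟩
      exact k1 _ ⟨f, List.mem_cons_of_mem _ hf, rfl⟩

noncomputable def runSubs (ms : List (ℕ × ℕ × ℕ)) : List ℕ → Option (List ℕ) :=
  List.rec (fun A => some A) (fun m _ r A => Option.rec none r (subE m A)) ms

lemma runSubs_hom : ∀ {ms : List (ℕ × ℕ × ℕ)} {A B : List ℕ},
    runSubs ms A = some B → Hom (sem A) (sem B) ∧ Hom (sem B) (sem A) := by
  intro ms
  induction ms with
  | nil =>
    intro A B h
    cases h
    exact ⟨Hom.refl _, Hom.refl _⟩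
  | cons m ms ih =>
    intro A B h
    have e : runSubs (m :: ms) A = Option.rec none (runSubs ms) (subE m A) := rfl
    rw [e] at h
    cases h1 : subE m A <;> rw [h1] at h
    · cases h
    · exact ⟨(subE_hom h1).1.trans (ih h).1, (ih h).2.trans (subE_hom h1).2⟩

noncomputable def subsetL (A B : List ℕ) : Bool := allL (fun f => anyL (fun g => Nat.beq f g) B) A

lemma subsetL_spec {A B : List ℕ} (h : subsetL A B = true) : sem A ⊆ sem B := by
  rintro _ ⟨f, hf, rfl⟩
  obtain ⟨g, hg, e⟩ := anyL_spec (allL_spec h f hf)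
  exact ⟨g, hg, by rw [Nat.eq_of_beq_eq_true e]⟩

noncomputable def checkHom (m₁ m₂ : List (ℕ × ℕ × ℕ)) (A B : List ℕ) : Bool :=
  Option.rec false (fun A' => Option.rec false (fun B' => subsetL A' B' && subsetL B' A')
    (runSubs m₂ B)) (runSubs m₁ A)

lemma checkHom_spec {m₁ m₂ : List (ℕ × ℕ × ℕ)} {A B : List ℕ} (h : checkHom m₁ m₂ A B = true) :
    Hom (sem A) (sem B) := by
  unfold checkHom at h
  cases h1 : runSubs m₁ A <;> rw [h1] at h
  · cases h
  cases h2 : runSubs m₂ B <;> rw [h2] at h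
  · cases h
  simp only [Bool.and_eq_true] at h
  have e := Set.Subset.antisymm (subsetL_spec h.1) (subsetL_spec h.2)
  exact (runSubs_hom h1).1.trans (e ▸ (runSubs_hom h2).2)

/-! ### collapses -/

lemma flipF_spec2 {s t st : ℕ} {tail : List ℕ} : ∀ {A B : List ℕ}, flipF s t st A tail = some B →
    ∀ f ∈ B, f ∈ tail ∨ (f ∈ A ∧ subm s f = false) := by
  intro A
  induction A with
  | nil => intro B h; simp only [flipF, Option.some.injEq] at h; simp [h]
  | cons f A ih =>
    intro B h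
    have e : flipF s t st (f :: A) tail = Bool.rec
      (Bool.rec (Option.rec none (fun l => some (f :: l)) (flipF s t st A tail))
        (Bool.rec none (flipF s t st A tail) (subm f st)) (subm s f)) none (subm t f) := rfl
    rw [e] at h
    cases h1 : subm t f <;> rw [h1] at h
    swap
    · cases h
    cases h2 : subm s f <;> rw [h2] at h
    · cases h3 : flipF s t st A tail <;> rw [h3] at h
      · cases h
      · cases h
        intro g hg
        rcases List.mem_cons.1 hg with rfl | hg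
        · exact Or.inr ⟨List.mem_cons_self, h2⟩
        · rcases ih h3 g hg with a | a
          · exact Or.inl a
          · exact Or.inr ⟨List.mem_cons_of_mem _ a.1, a.2⟩
    · cases h3 : subm f st <;> rw [h3] at h
      · cases h
      · intro g hg
        rcases ih h g hg with a | a
        · exact Or.inl a
        · exact Or.inr ⟨List.mem_cons_of_mem _ a.1, a.2⟩

lemma elem_collapse {F G : Set (Finset ℕ)} {σ : Finset ℕ} {v : ℕ} (hσ : σ.Nonempty) (hv : v ∉ σ)
    (h0 : ∃ f ∈ F, insert v σ ⊆ f) (h1 : ∀ f ∈ F, σ ⊆ f → f ⊆ insert v σ)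
    (h2 : ∀ f ∈ F, ¬ σ ⊆ f → f ∈ G) (h3 : ∀ u ∈ σ, insert v (σ.erase u) ∈ G)
    (h4 : ∀ g ∈ G, (g ∈ F ∧ ¬ σ ⊆ g) ∨ ∃ u ∈ σ, g = insert v (σ.erase u)) :
    ElemCollapse (faces F) (faces G) := by
  obtain ⟨f₀, hf₀, k₀⟩ := h0
  have free : ∀ r ∈ faces F, σ ⊆ r → r = σ ∨ r = insert v σ := by
    rintro r ⟨-, f, hf, hrf⟩ hr
    have := hrf.trans (h1 f hf (hr.trans hrf))
    by_cases e : v ∈ r
    · exact Or.inr (Finset.Subset.antisymm this (Finset.insert_subset e hr))
    · exact Or.inl (Finset.Subset.antisymm ((Finset.subset_insert_iff_of_notMem e).1 this) hr)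
  refine ⟨σ, ⟨hσ, f₀, hf₀, (Finset.subset_insert _ _).trans k₀⟩, insert v σ,
    ⟨Finset.insert_nonempty _ _, f₀, hf₀, k₀⟩, Finset.subset_insert _ _,
    Finset.card_insert_of_notMem hv, free, ?_⟩
  ext r
  simp only [Set.mem_sdiff, Set.mem_insert_iff, Set.mem_singleton_iff, not_or]
  constructor
  · rintro ⟨hne, g, hg, hrg⟩
    rcases h4 g hg with ⟨a, b⟩ | ⟨u, hu, rfl⟩
    · refine ⟨⟨hne, g, a, hrg⟩, ?_, ?_⟩
      · rintro rfl; exact b hrg
      · rintro rfl; exact b ((Finset.subset_insert _ _).trans hrg)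
    · have hu' : u ∉ r := fun a => by
        rcases Finset.mem_insert.1 (hrg a) with e | e
        · exact hv (e ▸ hu)
        · simp at e
      refine ⟨⟨hne, f₀, hf₀, hrg.trans ((Finset.insert_subset_insert _
        (Finset.erase_subset _ _)).trans k₀)⟩, ?_, ?_⟩
      · rintro rfl; exact hu' hu
      · rintro rfl; exact hu' (Finset.mem_insert_of_mem hu)
  · rintro ⟨hr, n1, n2⟩
    have hn : ¬ σ ⊆ r := fun a => (free r hr a).elim n1 n2
    obtain ⟨hne, f, hf, hrf⟩ := hr
    by_cases e : σ ⊆ f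
    · obtain ⟨u, hu, hur⟩ := Finset.not_subset.1 hn
      refine ⟨hne, _, h3 u hu, fun i hi => ?_⟩
      rcases Finset.mem_insert.1 (h1 f hf e (hrf hi)) with a | a
      · exact Finset.mem_insert.2 (Or.inl a)
      · exact Finset.mem_insert_of_mem (Finset.mem_erase.2 ⟨fun b => hur (b ▸ hi), a⟩)
    · exact ⟨hne, f, h2 f hf e, hrf⟩

/-- collapse the free face `u :: us` into the simplex with the extra vertex `v` -/
noncomputable def coll (m : ℕ × List ℕ × ℕ) (A : List ℕ) : Option (List ℕ) :=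
  Bool.rec none
    (flipF (maskOf (m.1 :: m.2.1)) (bit 99) (Nat.lor (bit m.2.2) (maskOf (m.1 :: m.2.1))) A
      (newF (maskOf (m.1 :: m.2.1)) (bit m.2.2) (m.1 :: m.2.1)))
    (anyL (subm (Nat.lor (bit m.2.2) (maskOf (m.1 :: m.2.1)))) A &&
      freshL m.2.2 [maskOf (m.1 :: m.2.1)])

lemma coll_spec {m : ℕ × List ℕ × ℕ} {A B : List ℕ} (h : coll m A = some B) :
    ElemCollapse (faces (sem A)) (faces (sem B)) := by
  unfold coll at h
  cases h1 : (anyL (subm (Nat.lor (bit m.2.2) (maskOf (m.1 :: m.2.1)))) A &&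
      freshL m.2.2 [maskOf (m.1 :: m.2.1)]) <;> rw [h1] at h
  · cases h
  rw [Bool.and_eq_true] at h1
  obtain ⟨k1, k2⟩ := flipF_spec h
  have k3 := flipF_spec2 h
  have e1 : ∀ a, bits (Nat.lor (bit m.2.2) a) = insert m.2.2 (bits a) := fun a => by
    rw [bits_lor, bits_bit]; rfl
  refine elem_collapse (σ := bits (maskOf (m.1 :: m.2.1))) (v := m.2.2) (by simp [bits_maskOf])
    (freshL_spec h1.2 _ ⟨_, List.mem_cons_self, rfl⟩) ?_ ?_ ?_ ?_ ?_
  · obtain ⟨f, hf, a⟩ := anyL_spec h1.1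
    exact ⟨_, ⟨f, hf, rfl⟩, by rw [← e1]; exact subm_iff.1 a⟩
  · rintro _ ⟨f, hf, rfl⟩ a
    rw [← e1]; exact subm_iff.1 ((k1 f hf).2.1 (subm_iff.2 a))
  · rintro _ ⟨f, hf, rfl⟩ a
    exact ⟨f, (k1 f hf).2.2 (subm_false.2 a), rfl⟩
  · intro u hu
    have hu' : u ∈ m.1 :: m.2.1 := by simpa [bits_maskOf] using hu
    refine ⟨_, k2 _ (by rw [newF_eq]; exact List.mem_map_of_mem hu'), ?_⟩
    rw [e1, bits_del]
  · rintro _ ⟨g, hg, rfl⟩
    rcases k3 g hg with a | a
    · rw [newF_eq] at a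
      obtain ⟨u, hu, rfl⟩ := List.mem_map.1 a
      exact Or.inr ⟨u, by simpa [bits_maskOf] using hu, by rw [e1, bits_del]⟩
    · exact Or.inl ⟨⟨g, a.1, rfl⟩, subm_false.1 a.2⟩

noncomputable def runColl (ms : List (ℕ × List ℕ × ℕ)) : List ℕ → Option (List ℕ) :=
  List.rec (fun A => some A) (fun m _ r A => Option.rec none r (coll m A)) ms

lemma runColl_spec : ∀ {ms : List (ℕ × List ℕ × ℕ)} {A B : List ℕ},
    runColl ms A = some B → Relation.ReflTransGen ElemCollapse (faces (sem A)) (faces (sem B)) := by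
  intro ms
  induction ms with
  | nil =>
    intro A B h
    cases h
    exact Relation.ReflTransGen.refl
  | cons m ms ih =>
    intro A B h
    have e : runColl (m :: ms) A = Option.rec none (runColl ms) (coll m A) := rfl
    rw [e] at h
    cases h1 : coll m A <;> rw [h1] at h
    · cases h
    · exact Relation.ReflTransGen.head (coll_spec h1) (ih h)

noncomputable def checkColl (ms : List (ℕ × List ℕ × ℕ)) (A : List ℕ) (p : ℕ) : Bool :=
  Option.rec false (fun B => subsetL B [bit p] && subsetL [bit p] B) (runColl ms A)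

lemma checkColl_spec {ms : List (ℕ × List ℕ × ℕ)} {A : List ℕ} {p : ℕ}
    (h : checkColl ms A p = true) : Relation.ReflTransGen ElemCollapse (faces (sem A)) {{p}} := by
  unfold checkColl at h
  cases h1 : runColl ms A <;> rw [h1] at h
  · cases h
  simp only [Bool.and_eq_true] at h
  have e := Set.Subset.antisymm (subsetL_spec h.1) (subsetL_spec h.2)
  have := runColl_spec h1
  rw [e] at this
  convert this
  ext r
  simp only [faces, sem, List.mem_singleton, exists_eq_left, bits_bit, Set.mem_ofPred_eq,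
    Set.mem_singleton_iff]
  constructor
  · rintro rfl; exact ⟨by simp, le_rfl⟩
  · rintro ⟨a, b⟩; exact (Finset.subset_singleton_iff.1 b).resolve_left a.ne_empty

end Pool.Agent.P.MP_e9dd47_gt
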