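import Pool.Agent.P.MP_e9dd47_gt.Subs

/-!
Relabelling, the antipodal action on labels, equivariant subdivisions and the quotient map.
-/

namespace Pool.Agent.P.MP_e9dd47_gt

open Finsupp

noncomputable def pm (f : ℕ → ℕ) : V →ₗ[ℝ] V := Finsupp.lmapDomain ℝ ℝ f

@[simp] lemma pm_single (f : ℕ → ℕ) (i : ℕ) (r : ℝ) : pm f (single i r) = single (f i) r := by
  simp [pm]

lemma lin_pm {E : Type} [AddCommGroup E] [Module ℝ E] (φ : ℕ → E) (f : ℕ → ℕ) (x : V) :
    lin φ (pm f x) = lin (fun i => φ (f i)) x := by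
  induction x using Finsupp.induction_linear with
  | zero => simp
  | add a b ha hb => simp only [map_add, ha, hb]
  | single i r => simp

lemma mass_pm (f : ℕ → ℕ) (x : V) : mass (pm f x) = mass x := lin_pm (fun _ => (1 : ℝ)) f x

lemma apply_eq_lin (x : V) (k : ℕ) : x k = lin (fun i => if i = k then (1 : ℝ) else 0) x := by
  induction x using Finsupp.induction_linear with
  | zero => simp
  | add a b ha hb => simp only [map_add, Finsupp.add_apply, ha, hb]
  | single i r => simp [single_apply]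

lemma lin_nonneg {c : ℕ → ℝ} {x : V} (hx : ∀ i, 0 ≤ x i) (hc : ∀ i ∈ x.support, 0 ≤ c i) :
    0 ≤ lin c x := by
  rw [lin_eq_sum c x _ le_rfl]
  exact Finset.sum_nonneg (fun i hi => mul_nonneg (hx i) (hc i hi))

lemma pm_nonneg (f : ℕ → ℕ) {x : V} (hx : ∀ i, 0 ≤ x i) (k : ℕ) : 0 ≤ pm f x k := by
  rw [apply_eq_lin, lin_pm]
  exact lin_nonneg hx (fun i _ => by split_ifs <;> norm_num)

lemma pm_support (f : ℕ → ℕ) (x : V) : (pm f x).support ⊆ x.support.image f :=
  Finsupp.mapDomain_support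

lemma pm_mem (f : ℕ → ℕ) {F G : Set (Finset ℕ)} (h : ∀ s ∈ F, ∃ t ∈ G, s.image f ⊆ t) {x : V}
    (hx : x ∈ real F) : pm f x ∈ real G := by
  obtain ⟨h0, h1, s, hs, hxs⟩ := hx
  obtain ⟨t, ht, k⟩ := h s hs
  exact ⟨pm_nonneg f h0, by rw [mass_pm, h1], t, ht,
    (pm_support f x).trans ((Finset.image_subset_image hxs).trans k)⟩

lemma cx_map (f : ℕ → ℕ) (L : List (List ℕ)) :
    ∀ s ∈ cx L, ∃ t ∈ cx (L.map (List.map f)), s.image f ⊆ t := by
  rintro _ ⟨l, hl, rfl⟩
  refine ⟨_, ⟨_, List.mem_map_of_mem hl, rfl⟩, fun i hi => ?_⟩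
  simpa using hi

lemma Emb.relabel {f : ℕ → ℕ} {n : ℕ} (hf : ∀ i < n, ∀ j < n, f i = f j → i = j)
    {L : List (List ℕ)} (hL : ∀ l ∈ L, ∀ i ∈ l, i < n) : Emb (cx L) (cx (L.map (List.map f))) := by
  refine ⟨pm f, GPL.linear _, fun x hx => pm_mem f (cx_map f L) hx, fun x hx y hy e => ?_⟩
  have key : ∀ z ∈ real (cx L), (z.support : Set ℕ) ⊆ {i | i < n} := by
    rintro z ⟨-, -, _, ⟨l, hl, rfl⟩, hz⟩ i hi
    exact hL l hl i (List.mem_toFinset.1 (hz hi))
  exact Finsupp.mapDomain_injOn {i | i < n} (fun i hi j hj => hf i hi j hj) (key x hx) (key y hy) e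

/-- the antipode on labels -/
def ant (i : ℕ) : ℕ := if i % 2 = 0 then i + 1 else i - 1

lemma ant_ant (i : ℕ) : ant (ant i) = i := by unfold ant; split_ifs <;> omega

lemma ant_inj : Function.Injective ant := fun i j e => by rw [← ant_ant i, e, ant_ant]

lemma act_apply (x : V) (i : ℕ) : pm ant x i = x (ant i) := by
  conv_lhs => rw [← ant_ant i]
  exact Finsupp.mapDomain_apply ant_inj x (ant i)

lemma act_act (x : V) : pm ant (pm ant x) = x := by
  ext i; rw [act_apply, act_apply, ant_ant]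

lemma mem_image_ant {σ : Finset ℕ} {i : ℕ} : i ∈ σ.image ant ↔ ant i ∈ σ := by
  rw [Finset.mem_image]
  exact ⟨fun ⟨j, hj, e⟩ => by rwa [← e, ant_ant], fun h => ⟨_, h, ant_ant i⟩⟩

lemma image_ant_ant (σ : Finset ℕ) : (σ.image ant).image ant = σ := by
  ext i; rw [mem_image_ant, mem_image_ant, ant_ant]

lemma Ctr.act {σ : Finset ℕ} {l : V} (h : Ctr σ l) : Ctr (σ.image ant) (pm ant l) := by
  refine ⟨h.ne.image _, pm_nonneg _ h.nonneg, by rw [mass_pm, h.mass], ?_⟩
  ext i
  rw [mem_image_ant, mem_support_iff, act_apply, ← h.supp, mem_support_iff]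

lemma act_U {σ : Finset ℕ} {l : V} (h : Ctr σ l) (w : ℕ) (x : V) :
    pm ant (Umap σ l w x) = Umap (σ.image ant) (pm ant l) (ant w) (pm ant x) := by
  have : mn (σ.image ant) (pm ant l) (pm ant x) = mn σ l x := by
    apply mn_eq h.act
    · intro i hi
      rw [act_apply, act_apply]
      exact mn_le h x (mem_image_ant.1 hi)
    · obtain ⟨i, hi, e⟩ := mn_attained h x
      exact ⟨ant i, Finset.mem_image_of_mem _ hi, by rw [act_apply, act_apply, ant_ant, e]⟩
  simp [Umap, this]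

lemma mn_U {σ σ' : Finset ℕ} {l l' : V} (h' : Ctr σ' l') (hd : Disjoint σ σ') {w : ℕ} (hw : w ∉ σ)
    (x : V) : mn σ l (Umap σ' l' w x) = mn σ l x := by
  unfold mn
  split_ifs with e
  · refine Finset.inf'_congr e rfl (fun i hi => ?_)
    rw [Umap_apply, h'.zero (Finset.disjoint_left.1 hd hi), if_neg (fun a : w = i => hw (a ▸ hi))]
    simp
  · rfl

lemma U_comm {σ σ' : Finset ℕ} {l l' : V} (h : Ctr σ l) (h' : Ctr σ' l') (hd : Disjoint σ σ')
    {w w' : ℕ} (hw : w ∉ σ') (hw' : w' ∉ σ) (x : V) :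
    Umap σ l w (Umap σ' l' w' x) = Umap σ' l' w' (Umap σ l w x) := by
  have e1 := mn_U (l := l) h' hd hw' x
  have e2 := mn_U (l := l') h hd.symm hw x
  conv_lhs => rw [Umap, e1, Umap]
  conv_rhs => rw [Umap, e2, Umap]
  abel

/-- equivariant PL embedding -/
def SEmb (F G : Set (Finset ℕ)) : Prop :=
  ∃ g : V → V, GPL g ∧ Set.MapsTo g (real F) (real G) ∧ Set.InjOn g (real F) ∧
    ∀ x, g (pm ant x) = pm ant (g x)

lemma SEmb.trans {F G H : Set (Finset ℕ)} (h : SEmb F G) (k : SEmb G H) : SEmb F H := by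
  obtain ⟨f, f1, f2, f3, f4⟩ := h
  obtain ⟨g, g1, g2, g3, g4⟩ := k
  exact ⟨g ∘ f, g1.comp f1, g2.comp f2, g3.comp f3 f2, fun x => by simp [f4, g4]⟩

lemma SEmb.sd {F : Set (Finset ℕ)} {σ : Finset ℕ} {w : ℕ} (hσ : σ.Nonempty)
    (hd : Disjoint σ (σ.image ant)) (hw : w ∉ σ) (hw' : w ∉ σ.image ant) (hF : ∀ t ∈ F, w ∉ t)
    (hF' : ∀ t ∈ sd F σ w, ant w ∉ t) : SEmb F (sd (sd F σ w) (σ.image ant) (ant w)) := by
  have c := bary_ctr hσ
  have k1 : ant w ∉ σ.image ant := by rwa [mem_image_ant, ant_ant]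
  have k2 : ant w ∉ σ := by rwa [mem_image_ant] at hw'
  have b1 := U_bij c hw hF
  have b2 := U_bij c.act k1 hF'
  refine ⟨_, (GPL.Umap _ _ _).comp (GPL.Umap _ _ _), (b2.comp b1).mapsTo, (b2.comp b1).injOn,
    fun x => ?_⟩
  simp only [Function.comp]
  rw [act_U c.act, act_U c, image_ant_ant, act_act, ant_ant, U_comm c c.act hd hw' k2]

noncomputable def symE (m : ℕ × ℕ × ℕ) (A : List ℕ) : Option (List ℕ) :=
  Bool.rec none (some (subF (maskOf [ant m.1, ant m.2.1]) (ant m.2.2) [ant m.1, ant m.2.1]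
      (subF (maskOf [m.1, m.2.1]) m.2.2 [m.1, m.2.1] A)))
    (freshL m.2.2 (maskOf [m.1, m.2.1] :: maskOf [ant m.1, ant m.2.1] :: A) &&
      freshL (ant m.2.2) (subF (maskOf [m.1, m.2.1]) m.2.2 [m.1, m.2.1] A) &&
      Nat.beq (Nat.land (maskOf [m.1, m.2.1]) (maskOf [ant m.1, ant m.2.1])) 0)

lemma symE_spec {m : ℕ × ℕ × ℕ} {A B : List ℕ} (h : symE m A = some B) : SEmb (sem A) (sem B) := by
  unfold symE at h
  cases h1 : (freshL m.2.2 (maskOf [m.1, m.2.1] :: maskOf [ant m.1, ant m.2.1] :: A) &&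
      freshL (ant m.2.2) (subF (maskOf [m.1, m.2.1]) m.2.2 [m.1, m.2.1] A) &&
      Nat.beq (Nat.land (maskOf [m.1, m.2.1]) (maskOf [ant m.1, ant m.2.1])) 0) <;> rw [h1] at h
  · cases h
  cases h
  simp only [Bool.and_eq_true] at h1
  obtain ⟨⟨a, b⟩, c⟩ := h1
  have e : [ant m.1, ant m.2.1].toFinset = [m.1, m.2.1].toFinset.image ant := by simp
  have a' := freshL_spec a
  have b' := freshL_spec b
  have c' := land_eq_zero.1 c
  rw [sem_subF] at b'
  rw [bits_maskOf, bits_maskOf, e] at c'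
  rw [sem_subF, sem_subF, e]
  refine SEmb.sd (by simp) c' ?_ ?_ ?_ b'
  · rw [← bits_maskOf]; exact a' _ ⟨_, List.mem_cons_self, rfl⟩
  · rw [← e, ← bits_maskOf]; exact a' _ ⟨_, List.mem_cons_of_mem _ List.mem_cons_self, rfl⟩
  · rintro _ ⟨f, hf, rfl⟩
    exact a' _ ⟨f, List.mem_cons_of_mem _ (List.mem_cons_of_mem _ hf), rfl⟩

noncomputable def runSym (ms : List (ℕ × ℕ × ℕ)) : List ℕ → Option (List ℕ) :=
  List.rec (fun A => some A) (fun m _ r A => Option.rec none r (symE m A)) ms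

lemma runSym_spec : ∀ {ms : List (ℕ × ℕ × ℕ)} {A B : List ℕ},
    runSym ms A = some B → SEmb (sem A) (sem B) := by
  intro ms
  induction ms with
  | nil =>
    intro A B h
    cases h
    exact ⟨fun x => x, GPL.id, fun _ a => a, fun _ _ _ _ a => a, fun _ => rfl⟩
  | cons m ms ih =>
    intro A B h
    have e : runSym (m :: ms) A = Option.rec none (runSym ms) (symE m A) := rfl
    rw [e] at h
    cases h1 : symE m A <;> rw [h1] at h
    · cases h
    · exact (symE_spec h1).trans (ih h)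

noncomputable def checkSym (ms : List (ℕ × ℕ × ℕ)) (L M : List (List ℕ)) : Bool :=
  Option.rec false (fun B => eqL B (masks M)) (runSym ms (masks L))

lemma checkSym_spec {ms : List (ℕ × ℕ × ℕ)} {L M : List (List ℕ)}
    (h : checkSym ms L M = true) : SEmb (cx L) (cx M) := by
  unfold checkSym at h
  cases h1 : runSym ms (masks L) <;> rw [h1] at h
  · cases h
  · rw [← sem_masks, ← sem_masks, ← eqL_spec h]
    exact runSym_spec h1

/-! ### the quotient -/

def half (i : ℕ) : ℕ := i / 2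

lemma push_apply (x : V) (i : ℕ) : pm half x (half i) = x i + x (ant i) := by
  induction x using Finsupp.induction_linear with
  | zero => simp
  | add a b ha hb => simp only [map_add, Finsupp.add_apply, ha, hb]; ring
  | single j r =>
    simp only [pm_single, single_apply, half, ant]
    split_ifs <;> first | omega | simp

lemma push_act (x : V) : pm half (pm ant x) = pm half x := by
  induction x using Finsupp.induction_linear with
  | zero => simp
  | add a b ha hb => simp only [map_add, ha, hb]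
  | single j r =>
    simp only [pm_single, half, ant]
    congr 1
    split_ifs <;> omega

lemma fibre_aux {x y : V} {f g : Finset ℕ} (hx : x.support ⊆ f) (hy : y.support ⊆ g)
    (h1 : Disjoint f (f.image ant)) (h2 : Disjoint g (g.image ant)) (h3 : Disjoint f (g.image ant))
    (e : pm half x = pm half y) : y = x := by
  ext i
  have k := push_apply x i
  rw [e, push_apply] at k
  have zx : ∀ j, j ∉ f → x j = 0 := fun j hj => notMem_support_iff.1 (fun a => hj (hx a))
  have zy : ∀ j, j ∉ g → y j = 0 := fun j hj => notMem_support_iff.1 (fun a => hj (hy a))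
  by_cases a : i ∈ f
  · rw [zx (ant i) (fun b => Finset.disjoint_left.1 h1 a (mem_image_ant.2 b)),
      zy (ant i) (fun b => Finset.disjoint_left.1 h3 a (mem_image_ant.2 b))] at k
    linarith
  by_cases b : i ∈ g
  · rw [zx (ant i) (fun c => Finset.disjoint_left.1 h3 c (Finset.mem_image_of_mem _ b)),
      zy (ant i) (fun c => Finset.disjoint_left.1 h2 b (mem_image_ant.2 c))] at k
    linarith
  · rw [zx i a, zy i b]

lemma fibre {G : Set (Finset ℕ)} (h1 : ∀ f ∈ G, Disjoint f (f.image ant))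
    (h2 : ∀ f ∈ G, ∀ g ∈ G, Disjoint f g ∨ Disjoint f (g.image ant)) {x y : V} (hx : x ∈ real G)
    (hy : y ∈ real G) (e : pm half x = pm half y) : y = x ∨ y = pm ant x := by
  obtain ⟨-, -, f, hf, hx⟩ := hx
  obtain ⟨-, -, g, hg, hy⟩ := hy
  rcases h2 f hf g hg with a | a
  · right
    have : pm ant y = x := by
      refine fibre_aux hx ((pm_support ant y).trans (Finset.image_subset_image hy)) (h1 f hf) ?_ ?_ ?_
      · rw [image_ant_ant]; exact (h1 g hg).symm
      · rwa [image_ant_ant]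
      · rw [push_act, e]
    rw [← this, act_act]
  · exact Or.inl (fibre_aux hx hy (h1 f hf) (h1 g hg) a e)

noncomputable def checkFib (L : List (List ℕ)) : Bool :=
  L.all (fun g => Nat.beq (Nat.land (maskOf g) (maskOf (g.map ant))) 0 &&
    allL (fun f => Nat.beq (Nat.land f (maskOf g)) 0 || Nat.beq (Nat.land f (maskOf (g.map ant))) 0)
      (masks L))

lemma checkFib_spec {L : List (List ℕ)} (h : checkFib L = true) {x y : V} (hx : x ∈ real (cx L))
    (hy : y ∈ real (cx L)) (e : pm half x = pm half y) : y = x ∨ y = pm ant x := by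
  unfold checkFib at h
  rw [List.all_eq_true] at h
  have im : ∀ g : List ℕ, bits (maskOf (g.map ant)) = g.toFinset.image ant := fun g => by
    rw [bits_maskOf]; ext i; simp
  refine fibre ?_ ?_ hx hy e
  · rintro _ ⟨g, hg, rfl⟩
    have := h g hg
    rw [Bool.and_eq_true, land_eq_zero, im, bits_maskOf] at this
    exact this.1
  · rintro _ ⟨f, hf, rfl⟩ _ ⟨g, hg, rfl⟩
    have := h g hg
    rw [Bool.and_eq_true] at this
    have k := allL_spec this.2 (maskOf f) (by rw [masks_eq]; exact List.mem_map_of_mem hf)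
    rwa [Bool.or_eq_true, land_eq_zero, land_eq_zero, im, bits_maskOf, bits_maskOf] at k

end Pool.Agent.P.MP_e9dd47_gt
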